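import Pool.Agent.Helper17.AP.Main

set_option autoImplicit false

/-! # Random complete intersections: algebraic points of bounded degree, final form -/

namespace Pool.Agent.Helper17.AP

open Finset Pool.Agent.Helper259.AbsHt Module Pool.Agent.R870.RC MvPolynomial

variable {n : ℕ}

theorem points_finite (n m e : ℕ) (E : Set (MvPolynomial (Fin (n + 1)) ℚ))
    (hE : ∀ P ∈ E, ∃ e, P.IsHomogeneous e)
    (hdim : Algebra.trdeg ℚ (MvPolynomial (Fin (n + 1)) ℚ ⧸ Ideal.span E) = m + 1)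
    (B : ℝ) (hB : 1 ≤ B) : {x : Fin (n + 1) → Qbar | IsPoint e B x ∧ OnC E x}.Finite := by
  by_contra hinf
  obtain ⟨K, hK, h⟩ := north_V e m E hE hdim
  have hinf' : {x : Fin (n + 1) → Qbar | IsPoint e B x ∧ OnC E x}.Infinite := hinf
  obtain ⟨S, hS, hcard⟩ := hinf'.exists_subset_card_eq (⌊K * (B ^ e) ^ (m * e + 1)⌋₊ + 1)
  have h1 := h (B ^ e) (one_le_pow₀ hB) S (fun x hx => ?_)
  · rw [hcard] at h1
    have h2 := Nat.lt_floor_add_one (K * (B ^ e) ^ (m * e + 1))
    push_cast at h1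
    linarith
  · obtain ⟨⟨hx1, hx2, hx3⟩, hx4⟩ := hS hx
    refine ⟨hx1, hx2, ?_, hx4⟩
    rw [Real.log_pow]
    exact mul_le_mul_of_nonneg_left hx3 (Nat.cast_nonneg _)

theorem systems_SF {s : ℕ} (d : Fin s → ℕ) (H : ℕ) : Systems n d H = ↑(SF n d H) := by
  ext F
  rw [Finset.mem_coe, mem_SF]

/-- **upper bound** -/
theorem upper (n m s e : ℕ) (he : 1 ≤ e) (E : Set (MvPolynomial (Fin (n + 1)) ℚ))
    (hE : ∀ P ∈ E, ∃ e, P.IsHomogeneous e)
    (hdim : Algebra.trdeg ℚ (MvPolynomial (Fin (n + 1)) ℚ ⧸ Ideal.span E) = m + 1)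
    (d : Fin s → ℕ) (hd : ∀ i, e ≤ d i + 1) (hD : m * e + 2 ≤ ∑ i, (d i + 1 - e)) :
    ∃ K : ℝ, 0 < K ∧ ∀ (H : ℕ) (B : ℝ), 1 ≤ H → 1 ≤ B →
      ((AlgPoint E e d H B).ncard : ℝ) ≤ K / (H : ℝ) ^ (e * s) *
        (1 + B ^ (e * (m * e + 1)) / (H : ℝ) ^ (∑ i, (d i + 1 - e))) *
          ((Systems n d H).ncard : ℝ) := by
  classical
  obtain ⟨K, hK, h⟩ := upper_finite n m s e he E hE hdim d hd hD
  refine ⟨K, hK, fun H B hH hB => ?_⟩
  set X := (points_finite n m e E hE hdim B hB).toFinset with hX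
  have hmemX : ∀ x, x ∈ X ↔ IsPoint e B x ∧ OnC E x := fun x => by
    rw [hX, Set.Finite.mem_toFinset]; rfl
  have h1 := h H B hH hB X (fun x hx => (hmemX x).1 hx)
  have h2 : AlgPoint E e d H B ⊆ ↑(X.biUnion (fun x =>
      (SF n d H).filter (fun F => ∀ i, aeval x (F i) = 0))) := by
    rintro F ⟨hF, x, hx, hxE, hFx⟩
    rw [Finset.mem_coe, Finset.mem_biUnion]
    exact ⟨x, (hmemX x).2 ⟨hx, hxE⟩, Finset.mem_filter.2 ⟨mem_SF.2 hF, hFx⟩⟩
  have h3 : (AlgPoint E e d H B).ncard ≤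
      ∑ x ∈ X, ((SF n d H).filter (fun F => ∀ i, aeval x (F i) = 0)).card := by
    refine (Set.ncard_le_ncard h2 (Finset.finite_toSet _)).trans ?_
    rw [Set.ncard_coe_finset]
    exact Finset.card_biUnion_le
  have h4 : ((AlgPoint E e d H B).ncard : ℝ) ≤
      ∑ x ∈ X, (((SF n d H).filter (fun F => ∀ i, aeval x (F i) = 0)).card : ℝ) := by
    calc ((AlgPoint E e d H B).ncard : ℝ) ≤ ((∑ x ∈ X,
          ((SF n d H).filter (fun F => ∀ i, aeval x (F i) = 0)).card : ℕ) : ℝ) := Nat.cast_le.2 h3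
      _ = _ := Nat.cast_sum _ _
  rw [systems_SF, Set.ncard_coe_finset]
  refine (h4.trans h1).trans (le_of_eq ?_)
  rw [mul_one_div]

/-- **lower bound** -/
theorem lower (n s e : ℕ) (E : Set (MvPolynomial (Fin (n + 1)) ℚ)) (d : Fin s → ℕ) (B₀ : ℝ)
    (hB₀ : 1 ≤ B₀) (hx : ∃ x : Fin (n + 1) → Qbar, IsPoint e B₀ x ∧ ∀ P ∈ E, aeval x P = 0) :
    ∃ c : ℝ, 0 < c ∧ ∀ (H : ℕ) (B : ℝ), 1 ≤ H → B₀ ≤ B →
      c / (H : ℝ) ^ (e * s) * ((Systems n d H).ncard : ℝ) ≤
        ((AlgPoint E e d H B).ncard : ℝ) := by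
  classical
  obtain ⟨x, ⟨hx1, hx2, hx3⟩, hxE⟩ := hx
  choose c hc0 hc using fun i => low_one (d i) e x hx1 hx2
  refine ⟨∏ i, c i, Finset.prod_pos fun i _ => hc0 i, fun H B hH hB => ?_⟩
  have h1 : (↑((SF n d H).filter (fun F => ∀ i, aeval x (F i) = 0)) :
      Set (Fin s → MvPolynomial (Fin (n + 1)) ℤ)) ⊆ AlgPoint E e d H B := by
    intro F hF
    rw [Finset.mem_coe, Finset.mem_filter] at hF
    exact ⟨mem_SF.1 hF.1, x, ⟨hx1, hx2, hx3.trans (Real.log_le_log (by linarith) hB)⟩, hxE, hF.2⟩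
  have hfin : (AlgPoint E e d H B).Finite := by
    refine Set.Finite.subset (Finset.finite_toSet (SF n d H)) ?_
    rintro F ⟨hF, _⟩
    exact mem_SF.2 hF
  have h2 := Set.ncard_le_ncard h1 hfin
  rw [Set.ncard_coe_finset] at h2
  have h3 : (((SF n d H).filter (fun F => ∀ i, aeval x (F i) = 0)).card : ℝ) ≤
      ((AlgPoint E e d H B).ncard : ℝ) := Nat.cast_le.2 h2
  refine le_trans ?_ h3
  rw [card_SF_zero, systems_SF, Set.ncard_coe_finset, card_SF]
  have hH0 : (0 : ℝ) < H := by exact_mod_cast hH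
  have h4 := Finset.prod_le_prod (s := (Finset.univ : Finset (Fin s)))
    (f := fun i => c i * (1 / (H : ℝ) ^ e) * ((FF n (d i) H).card : ℝ))
    (g := fun i => (((FF n (d i) H).filter (fun G => aeval x G = 0)).card : ℝ))
    (fun i _ => mul_nonneg (mul_nonneg (hc0 i).le (by positivity)) (Nat.cast_nonneg _))
    (fun i _ => hc i H hH)
  refine le_trans (le_of_eq ?_) h4
  rw [Finset.prod_mul_distrib, Finset.prod_mul_distrib, Finset.prod_const, Finset.card_univ,
    Fintype.card_fin, div_pow, one_pow, ← pow_mul, mul_one_div]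

theorem irr (e : ℕ) (he : 1 ≤ e) : Irreducible (Polynomial.X ^ e - Polynomial.C 2 : Polynomial ℤ) := by
  have hdeg : (Polynomial.X ^ e - Polynomial.C 2 : Polynomial ℤ).natDegree = e :=
    Polynomial.natDegree_X_pow_sub_C
  have hmonic : (Polynomial.X ^ e - Polynomial.C 2 : Polynomial ℤ).Monic :=
    Polynomial.monic_X_pow_sub_C _ (by omega)
  have hprime : (Ideal.span {(2 : ℤ)}).IsPrime := by
    rw [Ideal.span_singleton_prime (by norm_num)]
    exact Int.prime_two
  refine Polynomial.irreducible_of_eisenstein_criterion hprime ?_ ?_ ?_ ?_ hmonic.isPrimitive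
  · rw [hmonic.leadingCoeff, Ideal.mem_span_singleton]
    intro h
    have := Int.isUnit_iff.1 (isUnit_of_dvd_one h)
    omega
  · intro k hk
    rw [Polynomial.degree_eq_natDegree hmonic.ne_zero, hdeg, Nat.cast_lt] at hk
    rw [Polynomial.coeff_sub, Polynomial.coeff_X_pow, if_neg (by omega), Polynomial.coeff_C,
      Ideal.mem_span_singleton]
    split_ifs
    · norm_num
    · norm_num
  · rw [Polynomial.degree_eq_natDegree hmonic.ne_zero, hdeg]
    exact_mod_cast he
  · rw [Polynomial.coeff_sub, Polynomial.coeff_X_pow, if_neg (by omega), Polynomial.coeff_C_zero,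
      zero_sub, Ideal.span_singleton_pow, Ideal.mem_span_singleton]
    intro h
    have := Int.le_of_dvd (by norm_num) ((dvd_neg.1 h))
    norm_num at this

theorem exists_degree (e : ℕ) (he : 1 ≤ e) : ∃ α : Qbar, (minpoly ℚ α).natDegree = e := by
  have h1 := irr e he
  have hmonic : (Polynomial.X ^ e - Polynomial.C 2 : Polynomial ℤ).Monic :=
    Polynomial.monic_X_pow_sub_C _ (by omega)
  rw [Polynomial.IsPrimitive.Int.irreducible_iff_irreducible_map_cast hmonic.isPrimitive] at h1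
  set p := (Polynomial.X ^ e - Polynomial.C 2 : Polynomial ℤ).map (Int.castRingHom ℚ) with hp
  have hpm : p.Monic := hmonic.map _
  have hpd : p.natDegree = e := by
    rw [hp, hmonic.natDegree_map, Polynomial.natDegree_X_pow_sub_C]
  obtain ⟨α, hα⟩ := IsAlgClosed.exists_aeval_eq_zero Qbar p (by
    rw [Polynomial.degree_eq_natDegree hpm.ne_zero, hpd]
    have : e ≠ 0 := by omega
    exact_mod_cast this)
  refine ⟨α, ?_⟩
  rw [← minpoly.eq_of_irreducible_of_monic h1 hα hpm, hpd]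

/-- there are points of every degree -/
theorem exists_point (n e : ℕ) (hn : 1 ≤ n) (he : 1 ≤ e) :
    ∃ B₀ : ℝ, 1 ≤ B₀ ∧ ∃ x : Fin (n + 1) → Qbar, IsPoint e B₀ x := by
  obtain ⟨α, hα⟩ := exists_degree e he
  have hint : IsIntegral ℚ α := ((AlgebraicClosure.isAlgebraic ℚ).isAlgebraic α).isIntegral
  set x : Fin (n + 1) → Qbar := fun i => if i = 0 then 1 else if i = ⟨1, by omega⟩ then α else 0
    with hx
  have hfield : fieldOf x = IntermediateField.adjoin ℚ {α} := by
    refine le_antisymm ?_ ?_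
    · rw [IntermediateField.adjoin_le_iff]
      rintro _ ⟨i, rfl⟩
      rw [hx]
      simp only
      split_ifs
      · exact one_mem _
      · exact IntermediateField.mem_adjoin_simple_self ℚ α
      · exact zero_mem _
    · rw [IntermediateField.adjoin_le_iff, Set.singleton_subset_iff]
      refine IntermediateField.subset_adjoin ℚ _ ⟨⟨1, by omega⟩, ?_⟩
      rw [hx]
      simp only
      rw [if_neg, if_pos trivial]
      intro h
      have := congrArg Fin.val h
      simp at this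
  refine ⟨Real.exp (absLogHeight x), Real.one_le_exp (absLogHeight_nonneg x), x, ⟨0, ?_⟩, ?_, ?_⟩
  · rw [hx]; simp
  · rw [hfield, IntermediateField.adjoin.finrank hint, hα]
  · rw [Real.log_exp]

end Pool.Agent.Helper17.AP
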