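import Mathlib
import Pool.Graph.R_seed8.R870.RC.Defs
import Pool.Graph.R_seed8.Helper259.HtDef

set_option autoImplicit false

/-! # Algebraic points of bounded degree: definitions -/

namespace Pool.Agent.Helper17.AP

open MvPolynomial Module Pool.Agent.R870.RC Pool.Agent.Helper259.AbsHt

variable {n : ℕ}

/-- `x` represents a point of projective `n`-space of degree `e` over `ℚ` and of absolute
multiplicative height at most `B`: the coordinates are algebraic numbers, one of them is `1`, they
generate a number field of degree `e` (the residue field of the point), and the absolute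
logarithmic Weil height is at most `log B` -/
def IsPoint (e : ℕ) (B : ℝ) (x : Fin (n + 1) → Qbar) : Prop :=
  (∃ j, x j = 1) ∧ finrank ℚ (fieldOf x) = e ∧ absLogHeight x ≤ Real.log B

/-- the systems `F = (F_1, …, F_s)` of forms of degrees `d_1, …, d_s` with integer coefficients of
absolute value at most `H` such that `V ∩ {F_1 = ⋯ = F_s = 0}`, `V` the projective variety defined
by the set `E` of forms, has an algebraic point of degree `e` and of height at most `B` -/
def AlgPoint (E : Set (MvPolynomial (Fin (n + 1)) ℚ)) (e : ℕ) {s : ℕ} (d : Fin s → ℕ) (H : ℕ)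
    (B : ℝ) : Set (Fin s → MvPolynomial (Fin (n + 1)) ℤ) :=
  {F | F ∈ Systems n d H ∧ ∃ x : Fin (n + 1) → Qbar, IsPoint e B x ∧ (∀ P ∈ E, aeval x P = 0) ∧
    ∀ i, aeval x (F i) = 0}

/-- the systems `F = (F_1, …, F_s)` of forms of degrees `d_1, …, d_s` with integer coefficients of
absolute value at most `H` such that, for some number field `K` of degree at most `e`,
`V ∩ {F_1 = ⋯ = F_s = 0}` has a `K`-rational point of absolute multiplicative height at most `B`
(Mathlib's `Height.mulHeight` is the height relative to `K`, its `[K : ℚ]`-th power) -/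
def FieldPoint (E : Set (MvPolynomial (Fin (n + 1)) ℚ)) (e : ℕ) {s : ℕ} (d : Fin s → ℕ) (H : ℕ)
    (B : ℝ) : Set (Fin s → MvPolynomial (Fin (n + 1)) ℤ) :=
  {F | F ∈ Systems n d H ∧ ∃ (K : Type) (_ : Field K) (_ : NumberField K) (x : Fin (n + 1) → K),
    finrank ℚ K ≤ e ∧ x ≠ 0 ∧ Height.mulHeight x ≤ B ^ finrank ℚ K ∧ (∀ P ∈ E, aeval x P = 0) ∧
    ∀ i, aeval x (F i) = 0}

end Pool.Agent.Helper17.AP
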