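import Pool.Agent.Helper17.AP.North
import Pool.Graph.R_seed8.R870.RC.Low

set_option autoImplicit false

/-! # The lower bound -/

namespace Pool.Agent.Helper17.AP

open Finset Pool.Agent.Helper259.AbsHt Module Pool.Agent.R870.RC MvPolynomial

variable {n : ℕ}

theorem aeval_Phi {d : ℕ} (g : Mo n d → ℤ) (x : Fin (n + 1) → Qbar) :
    aeval x (Phi n d g) = ∑ m : Mo n d, (g m : Qbar) * ∏ k, x k ^ (m.1 k) := by
  unfold Phi
  rw [map_sum]
  refine Finset.sum_congr rfl fun m _ => ?_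
  rw [aeval_monomial, Finsupp.prod_fintype _ _ (fun i => pow_zero _)]
  rfl

/-- integral linear forms describing the vanishing at an algebraic point -/
theorem exists_forms (d e : ℕ) (x : Fin (n + 1) → Qbar) (hx : ∃ j, x j = 1)
    (he : finrank ℚ (fieldOf x) = e) : ∃ A : Mo n d → Fin e → ℤ, ∀ g : Mo n d → ℤ,
      (∀ k, ∑ m, g m * A m k = 0) → aeval x (Phi n d g) = 0 := by
  classical
  let b := Module.finBasisOfFinrankEq ℚ (fieldOf x) he
  obtain ⟨j, hj⟩ := hx
  set v : Mo n d → fieldOf x := fun m => ∏ k, xf x k ^ (m.1 k) with hv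
  have hepos : 0 < e := by
    rw [← he]
    exact Module.finrank_pos
  have hm0 : Finsupp.single j d ∈ Mo n d := by rw [mem_Mo, Finsupp.degree_single]
  set r : Mo n d × Fin e → ℚ := fun p => b.repr (v p.1) p.2 with hr
  have : Nonempty (Mo n d × Fin e) := ⟨(⟨_, hm0⟩, ⟨0, hepos⟩)⟩
  have hr0 : r ≠ 0 := by
    intro h
    have h1 : v ⟨_, hm0⟩ = 1 := by
      rw [hv]
      simp only
      rw [Finset.prod_eq_single j]
      · have : xf x j = 1 := Subtype.ext hj
        rw [this, one_pow]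
      · intro k _ hk
        rw [Finsupp.single_eq_of_ne hk, pow_zero]
      · intro h2
        exact absurd (Finset.mem_univ _) h2
    have h2 : b.repr (v ⟨_, hm0⟩) = 0 := by
      ext k
      exact congrFun h (⟨_, hm0⟩, k)
    rw [h1] at h2
    have h3 : (1 : fieldOf x) = 0 := by
      have := (LinearEquiv.map_eq_zero_iff b.repr).1 h2
      exact this
    exact one_ne_zero h3
  obtain ⟨c, z, hc, _, hz⟩ := exists_int r hr0
  refine ⟨fun m k => z (m, k), fun g hg => ?_⟩
  have h1 : ∑ m, (g m : ℚ) • v m = 0 := by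
    apply b.repr.injective
    rw [map_zero]
    ext k
    rw [map_sum, Finsupp.finsetSum_apply]
    simp only [map_smul, Finsupp.smul_apply, smul_eq_mul, Finsupp.coe_zero, Pi.zero_apply]
    have h2 := congrArg (fun a : ℤ => (a : ℚ)) (hg k)
    simp only [Int.cast_sum, Int.cast_mul, Int.cast_zero, hz] at h2
    have h3 : c * ∑ m, (g m : ℚ) * r (m, k) = 0 := by
      rw [Finset.mul_sum, ← h2]
      refine Finset.sum_congr rfl fun m _ => ?_
      ring
    exact (mul_eq_zero.1 h3).resolve_left hc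
  have h2 := congrArg (fun a : fieldOf x => (a : Qbar)) h1
  rw [aeval_Phi, ← ZeroMemClass.coe_zero (fieldOf x), ← h1]
  push_cast
  refine Finset.sum_congr rfl fun m _ => ?_
  rw [hv]
  simp only
  rw [Algebra.smul_def]
  push_cast
  rfl

theorem low_aux (H a N e z φ : ℕ) (hH : 1 ≤ H) (h1 : (H + 1) ^ N ≤ z * (2 * (a * H) + 1) ^ e)
    (hφ : φ = (2 * H + 1) ^ N) :
    1 / ((2 * (a : ℝ) + 1) ^ e * 2 ^ N) * (1 / (H : ℝ) ^ e) * (φ : ℝ) ≤ (z : ℝ) := by
  have hH0 : (0 : ℝ) < H := by exact_mod_cast hH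
  have h2 : (2 * H + 1) ^ N ≤ 2 ^ N * (H + 1) ^ N := by
    rw [← mul_pow]
    exact Nat.pow_le_pow_left (by omega) _
  have h3 : (2 * (a * H) + 1) ^ e ≤ ((2 * a + 1) * H) ^ e := Nat.pow_le_pow_left (by nlinarith) _
  have h4 : φ ≤ 2 ^ N * (z * ((2 * a + 1) * H) ^ e) := by
    rw [hφ]
    exact h2.trans (Nat.mul_le_mul_left _ (h1.trans (Nat.mul_le_mul_left _ h3)))
  clear h1 h2 h3 hφ
  have h5 : (φ : ℝ) ≤ ((2 ^ N * (z * ((2 * a + 1) * H) ^ e) : ℕ) : ℝ) := Nat.cast_le.2 h4
  rw [Nat.cast_mul, Nat.cast_mul, Nat.cast_pow, Nat.cast_pow, Nat.cast_mul, Nat.cast_add,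
    Nat.cast_mul, mul_pow, Nat.cast_one, Nat.cast_ofNat] at h5
  have hK : (0 : ℝ) < (2 * (a : ℝ) + 1) ^ e * 2 ^ N := by positivity
  have hHe : (0 : ℝ) < (H : ℝ) ^ e := by positivity
  rw [one_div_mul_one_div, one_div_mul_eq_div, div_le_iff₀ (mul_pos hK hHe)]
  refine h5.trans (le_of_eq ?_)
  ring

open Classical in
/-- **lower bound for one form** -/
theorem low_one (d e : ℕ) (x : Fin (n + 1) → Qbar) (hx : ∃ j, x j = 1)
    (he : finrank ℚ (fieldOf x) = e) : ∃ c : ℝ, 0 < c ∧ ∀ H : ℕ, 1 ≤ H →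
      c * (1 / (H : ℝ) ^ e) * ((FF n d H).card : ℝ) ≤
        (((FF n d H).filter (fun F => aeval x F = 0)).card : ℝ) := by
  obtain ⟨A, hA⟩ := exists_forms d e x hx he
  set a : ℕ := ∑ m, ∑ k, (A m k).natAbs with ha
  set N := Fintype.card (Mo n d) with hN
  refine ⟨1 / ((2 * a + 1) ^ e * 2 ^ N), by positivity, fun H hH => ?_⟩
  set Bx : Finset (Mo n d → ℤ) := Fintype.piFinset (fun _ => Finset.Icc (0 : ℤ) H) with hBx
  set Zx : Finset (Fin e → ℤ) := Fintype.piFinset
    (fun _ => Finset.Icc (-((a * H : ℕ) : ℤ)) ((a * H : ℕ) : ℤ)) with hZx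
  set Z := (FF n d H).filter (fun F => aeval x F = 0) with hZ
  have hmem : ∀ g ∈ Bx, ∀ m, 0 ≤ g m ∧ g m ≤ H := by
    intro g hg m
    rw [hBx, Fintype.mem_piFinset] at hg
    exact Finset.mem_Icc.1 (hg m)
  have hmaps : ∀ g ∈ Bx, (fun k => ∑ m, g m * A m k) ∈ Zx := by
    intro g hg
    rw [hZx, Fintype.mem_piFinset]
    intro k
    rw [Finset.mem_Icc, ← abs_le]
    have h1 : |∑ m, g m * A m k| ≤ ∑ m, (H : ℤ) * (A m k).natAbs := by
      refine (Finset.abs_sum_le_sum_abs _ _).trans (Finset.sum_le_sum fun m _ => ?_)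
      rw [abs_mul, ← Int.abs_eq_natAbs]
      have h2 := hmem g hg m
      exact mul_le_mul_of_nonneg_right (by rw [abs_of_nonneg h2.1]; exact h2.2) (abs_nonneg _)
    rw [← Finset.mul_sum] at h1
    refine h1.trans ?_
    rw [mul_comm]
    push_cast
    refine mul_le_mul_of_nonneg_right ?_ (Nat.cast_nonneg _)
    have h3 : ∑ m, (A m k).natAbs ≤ a := by
      rw [ha]
      refine Finset.sum_le_sum fun m _ => ?_
      exact Finset.single_le_sum (f := fun k => (A m k).natAbs) (fun _ _ => Nat.zero_le _)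
        (Finset.mem_univ k)
    have h4 : ((∑ m, (A m k).natAbs : ℕ) : ℤ) ≤ (a : ℤ) := by exact_mod_cast h3
    simpa using h4
  have hfib : ∀ w ∈ Zx, (Bx.filter (fun g => (fun k => ∑ m, g m * A m k) = w)).card ≤ Z.card := by
    intro w _
    rcases (Bx.filter (fun g => (fun k => ∑ m, g m * A m k) = w)).eq_empty_or_nonempty with h | h
    · rw [h, Finset.card_empty]
      exact Nat.zero_le _
    · obtain ⟨g₀, hg₀⟩ := h
      rw [Finset.mem_filter] at hg₀
      refine Finset.card_le_card_of_injOn (fun g => Phi n d (g - g₀)) ?_ ?_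
      · intro g hg
        rw [Finset.mem_coe, Finset.mem_filter] at hg
        rw [Finset.mem_coe, hZ, Finset.mem_filter, mem_FF]
        refine ⟨⟨Phi_hom _, fun m => ?_⟩, hA _ fun k => ?_⟩
        · rw [coeff_Phi]
          by_cases hm : m ∈ Mo n d
          · rw [dif_pos hm, Pi.sub_apply, abs_le]
            have h1 := hmem g hg.1 ⟨m, hm⟩
            have h2 := hmem g₀ hg₀.1 ⟨m, hm⟩
            constructor <;> linarith [h1.1, h1.2, h2.1, h2.2]
          · rw [dif_neg hm, abs_zero]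
            exact Nat.cast_nonneg _
        · have h1 : ∑ m, g m * A m k = w k := congrFun hg.2 k
          have h2 : ∑ m, g₀ m * A m k = w k := congrFun hg₀.2 k
          simp only [Pi.sub_apply, sub_mul, Finset.sum_sub_distrib]
          rw [h1, h2, sub_self]
      · intro g _ g' _ h
        have h1 := Phi_inj h
        have h2 := congrArg (fun w => w + g₀) h1
        simpa using h2
  have h1 := Finset.card_le_mul_card_image_of_maps_to hmaps _ hfib
  have hBc : Bx.card = (H + 1) ^ N := by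
    rw [hBx, Fintype.card_piFinset, Finset.prod_const, Finset.card_univ, Int.card_Icc]
    congr 1
  have hZc : Zx.card = (2 * (a * H) + 1) ^ e := by
    rw [hZx, Fintype.card_piFinset, Finset.prod_const, Finset.card_univ, Fintype.card_fin,
      Int.card_Icc]
    congr 1
    omega
  rw [hBc, hZc] at h1
  have hFc : (FF n d H).card = (2 * H + 1) ^ N := by
    rw [card_FF, hN, Fintype.card_coe]
  exact low_aux H a N e Z.card _ hH h1 hFc

end Pool.Agent.Helper17.AP
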