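import Pool.Agent.Helper17.AP.North
import Pool.Agent.Helper17.AP.Proj
import Pool.Agent.Helper17.AP.Defs
import Pool.Agent.Helper17.RV.Var

set_option autoImplicit false

/-! # Counting the algebraic points of a projective variety -/

namespace Pool.Agent.Helper17.AP

open Finset Pool.Agent.Helper259.AbsHt Module MvPolynomial

variable {n : ℕ}

theorem homog_aeval {σ : Type} [Fintype σ] (P : MvPolynomial σ ℚ) (e : ℕ) (hP : P.IsHomogeneous e)
    (x : σ → Qbar) (c : Qbar) : aeval (fun i => c * x i) P = c ^ e * aeval x P := by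
  rw [MvPolynomial.aeval_def, MvPolynomial.aeval_def, MvPolynomial.eval₂_eq',
    MvPolynomial.eval₂_eq', Finset.mul_sum]
  refine Finset.sum_congr rfl fun m hm => ?_
  have h3 : ∑ j, m j = e := by
    have h4 := hP (MvPolynomial.mem_support_iff.1 hm)
    rw [← h4, Finsupp.weight_apply, Finsupp.sum_fintype _ _ (by simp)]
    simp
  simp only [mul_pow, Finset.prod_mul_distrib, Finset.prod_pow_eq_pow_sum, h3]
  ring

/-- the algebraic points on the cone -/
def OnC (E : Set (MvPolynomial (Fin (n + 1)) ℚ)) (x : Fin (n + 1) → Qbar) : Prop :=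
  ∀ P ∈ E, aeval x P = 0

theorem onC_scale (E : Set (MvPolynomial (Fin (n + 1)) ℚ)) (hE : ∀ P ∈ E, ∃ e, P.IsHomogeneous e)
    (x : Fin (n + 1) → Qbar) (hx : OnC E x) (c : Qbar) : OnC E (fun i => c * x i) := by
  intro P hP
  obtain ⟨e, he⟩ := hE P hP
  rw [homog_aeval P e he, hx P hP, mul_zero]

theorem rel_eval (E : Set (MvPolynomial (Fin (n + 1)) ℚ)) {J : Type} (ι : J → Fin (n + 1))
    (G : MvPolynomial J ℚ) (hG : aeval (fun k => Ideal.Quotient.mk (Ideal.span E) (X (ι k))) G = 0)
    (x : Fin (n + 1) → Qbar) (hx : OnC E x) : aeval (fun k => x (ι k)) G = 0 := by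
  have hker : ∀ f ∈ Ideal.span E, (aeval x : MvPolynomial (Fin (n + 1)) ℚ →ₐ[ℚ] Qbar) f = 0 := by
    intro f hf
    have h1 : Ideal.span E ≤ RingHom.ker (aeval x : MvPolynomial (Fin (n + 1)) ℚ →ₐ[ℚ] Qbar) := by
      rw [Ideal.span_le]
      intro P hP
      exact hx P hP
    exact h1 hf
  let φ : (MvPolynomial (Fin (n + 1)) ℚ ⧸ Ideal.span E) →ₐ[ℚ] Qbar :=
    Ideal.Quotient.liftₐ (Ideal.span E) (aeval x) hker
  have h1 := congrArg φ hG
  rw [map_zero] at h1
  have h2 : φ.comp (aeval (fun k => Ideal.Quotient.mk (Ideal.span E) (X (ι k)))) =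
      aeval (fun k => x (ι k)) := by
    apply MvPolynomial.algHom_ext
    intro k
    rw [AlgHom.comp_apply, aeval_X, aeval_X]
    show (aeval x) (X (ι k)) = _
    rw [aeval_X]
  rw [← h2]
  exact h1

theorem rel_comp (E : Set (MvPolynomial (Fin (n + 1)) ℚ)) (hE : ∀ P ∈ E, ∃ e, P.IsHomogeneous e)
    {J : Type} [Fintype J] (ι : J → Fin (n + 1))
    (G : MvPolynomial J ℚ) (hG : aeval (fun k => Ideal.Quotient.mk (Ideal.span E) (X (ι k))) G = 0)
    (x : Fin (n + 1) → Qbar) (hx : OnC E x) (δ : ℕ) :
    aeval (fun k => x (ι k)) (homogeneousComponent δ G) = 0 := by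
  classical
  set q : Polynomial Qbar := ∑ i ∈ Finset.range (G.totalDegree + 1),
    Polynomial.C (aeval (fun k => x (ι k)) (homogeneousComponent i G)) * Polynomial.X ^ i with hq
  have h1 : ∀ c : Qbar, q.eval c = 0 := by
    intro c
    have h2 := rel_eval E ι G hG (fun i => c * x i) (onC_scale E hE x hx c)
    rw [← h2]
    conv_rhs => rw [← sum_homogeneousComponent G]
    rw [hq, Polynomial.eval_finsetSum, map_sum]
    refine Finset.sum_congr rfl fun i _ => ?_
    rw [homog_aeval _ i (homogeneousComponent_isHomogeneous i G) (fun k => x (ι k)) c,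
      Polynomial.eval_mul, Polynomial.eval_C, Polynomial.eval_pow, Polynomial.eval_X, mul_comm]
  have h2 : q = 0 := Polynomial.funext fun c => by rw [h1 c, Polynomial.eval_zero]
  by_cases hδ : δ < G.totalDegree + 1
  · have h3 := congrArg (fun r => Polynomial.coeff r δ) h2
    simp only [hq, Polynomial.finsetSum_coeff, Polynomial.coeff_zero] at h3
    rw [Finset.sum_eq_single δ] at h3
    · rwa [Polynomial.coeff_C_mul_X_pow, if_pos rfl] at h3
    · intro i _ hi
      rw [Polynomial.coeff_C_mul_X_pow, if_neg (Ne.symm hi)]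
    · intro h
      exact absurd (Finset.mem_range.2 hδ) h
  · rw [homogeneousComponent_eq_zero δ G (by omega), map_zero]

/-- **relations in an affine chart** -/
theorem rel_affine (m : ℕ) (E : Set (MvPolynomial (Fin (n + 1)) ℚ))
    (hE : ∀ P ∈ E, ∃ e, P.IsHomogeneous e)
    (hdim : Algebra.trdeg ℚ (MvPolynomial (Fin (n + 1)) ℚ ⧸ Ideal.span E) = m + 1)
    (j : Fin (n + 1)) (J : Finset (Fin (n + 1))) (hJ : J.card = m + 1) :
    ∃ g : MvPolynomial J Qbar, g ≠ 0 ∧ ∀ x : Fin (n + 1) → Qbar, OnC E x → x j = 1 →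
      eval (fun k : J => x k) g = 0 := by
  classical
  by_cases hj : j ∈ J
  · refine ⟨X ⟨j, hj⟩ - C 1, ?_, fun x _ hxj => ?_⟩
    · intro h
      have h1 := congrArg (eval (fun _ : J => (0 : Qbar))) h
      simp at h1
    · simp [hxj]
  · have hcard : (insert j J).card = m + 2 := by
      rw [Finset.card_insert_of_notMem hj, hJ]
    obtain ⟨G, hG0, hG⟩ := Pool.Agent.Helper17.RV.dep (k := m + 1) (by exact_mod_cast hdim)
      (↥(insert j J)) (by rw [Fintype.card_coe, hcard]; omega)
      (fun k => Ideal.Quotient.mk (Ideal.span E) (X (k : Fin (n + 1))))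
    obtain ⟨δ, hδ⟩ : ∃ δ, homogeneousComponent δ G ≠ 0 := by
      by_contra hno
      push Not at hno
      apply hG0
      rw [← sum_homogeneousComponent G]
      exact Finset.sum_eq_zero fun i _ => hno i
    set P := homogeneousComponent δ G with hP
    have hPh : P.IsHomogeneous δ := homogeneousComponent_isHomogeneous δ G
    have hvan : ∀ x : Fin (n + 1) → Qbar, OnC E x →
        aeval (fun k : ↥(insert j J) => x k) P = 0 := fun x hx =>
      rel_comp E hE (fun k : ↥(insert j J) => (k : Fin (n + 1))) G hG x hx δ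
    set g : MvPolynomial J Qbar := aeval (fun k : ↥(insert j J) =>
      if h : (k : Fin (n + 1)) = j then (1 : MvPolynomial J Qbar) else
        X (⟨k, Finset.mem_of_mem_insert_of_ne k.2 h⟩ : J)) P with hg
    have hge : ∀ y : J → Qbar, eval y g = aeval (fun k : ↥(insert j J) =>
        if h : (k : Fin (n + 1)) = j then (1 : Qbar) else
          y (⟨k, Finset.mem_of_mem_insert_of_ne k.2 h⟩ : J)) P := by
      intro y
      have h1 : ((aeval y : MvPolynomial J Qbar →ₐ[Qbar] Qbar).restrictScalars ℚ).comp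
          (aeval (fun k : ↥(insert j J) =>
            if h : (k : Fin (n + 1)) = j then (1 : MvPolynomial J Qbar) else
              X (⟨k, Finset.mem_of_mem_insert_of_ne k.2 h⟩ : J)) :
              MvPolynomial (↥(insert j J)) ℚ →ₐ[ℚ] MvPolynomial J Qbar) =
          (aeval (fun k : ↥(insert j J) =>
            if h : (k : Fin (n + 1)) = j then (1 : Qbar) else
              y (⟨k, Finset.mem_of_mem_insert_of_ne k.2 h⟩ : J))) := by
        apply MvPolynomial.algHom_ext
        intro k
        by_cases hk : (k : Fin (n + 1)) = j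
        · simp [hk]
        · simp [hk]
      have h2 := DFunLike.congr_fun h1 P
      exact h2
    refine ⟨g, ?_, ?_⟩
    · intro h0
      have h1 : P.map (algebraMap ℚ Qbar) * X (⟨j, Finset.mem_insert_self j J⟩ : ↥(insert j J)) = 0 := by
        apply MvPolynomial.funext
        intro z
        rw [map_zero, map_mul, eval_X]
        by_cases hz : z ⟨j, Finset.mem_insert_self j J⟩ = 0
        · rw [hz, mul_zero]
        · set c := z ⟨j, Finset.mem_insert_self j J⟩ with hc
          have h2 := hge (fun k => c⁻¹ * z ⟨k, Finset.mem_insert_of_mem k.2⟩)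
          rw [h0, map_zero] at h2
          have h3 : (fun k : ↥(insert j J) => if h : (k : Fin (n + 1)) = j then (1 : Qbar) else
              (fun k : J => c⁻¹ * z ⟨k, Finset.mem_insert_of_mem k.2⟩)
                (⟨k, Finset.mem_of_mem_insert_of_ne k.2 h⟩ : J)) = fun k => c⁻¹ * z k := by
            funext k
            by_cases hk : (k : Fin (n + 1)) = j
            · rw [dif_pos hk]
              have : k = ⟨j, Finset.mem_insert_self j J⟩ := Subtype.ext hk
              rw [this, ← hc, inv_mul_cancel₀ hz]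
            · rw [dif_neg hk]
          rw [h3, homog_aeval P δ hPh] at h2
          have h4 : aeval z P = 0 :=
            (mul_eq_zero.1 h2.symm).resolve_left (pow_ne_zero _ (inv_ne_zero hz))
          have h5 : eval z (P.map (algebraMap ℚ Qbar)) = aeval z P := by
            rw [eval_map, aeval_def]
          rw [h5, h4, zero_mul]
      have h2 : P.map (algebraMap ℚ Qbar) = 0 := by
        rcases mul_eq_zero.1 h1 with h | h
        · exact h
        · exact absurd h (X_ne_zero _)
      exact hδ (MvPolynomial.map_injective _ (algebraMap ℚ Qbar).injective (by rw [h2, map_zero]))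
    · intro x hx hxj
      rw [hge, ← hvan x hx]
      congr 1
      congr 1
      funext k
      by_cases hk : (k : Fin (n + 1)) = j
      · rw [dif_pos hk, hk, hxj]
      · rw [dif_neg hk]

open Classical in
/-- **the number of algebraic points of a projective variety** -/
theorem north_V (e m : ℕ) (E : Set (MvPolynomial (Fin (n + 1)) ℚ))
    (hE : ∀ P ∈ E, ∃ e, P.IsHomogeneous e)
    (hdim : Algebra.trdeg ℚ (MvPolynomial (Fin (n + 1)) ℚ ⧸ Ideal.span E) = m + 1) :
    ∃ K : ℝ, 0 < K ∧ ∀ (T : ℝ), 1 ≤ T → ∀ S : Finset (Fin (n + 1) → Qbar),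
    (∀ x ∈ S, (∃ j, x j = 1) ∧ finrank ℚ (fieldOf x) = e ∧ e * absLogHeight x ≤ Real.log T ∧
      OnC E x) → (S.card : ℝ) ≤ K * T ^ (m * e + 1) := by
  -- the relations
  have hrel : ∀ (j : Fin (n + 1)) (J : Finset (Fin (n + 1))), ∃ g : MvPolynomial J Qbar,
      J.card = m + 1 → g ≠ 0 ∧ ∀ x : Fin (n + 1) → Qbar, OnC E x → x j = 1 →
        eval (fun k : J => x k) g = 0 := by
    intro j J
    by_cases h : J.card = m + 1
    · obtain ⟨g, hg⟩ := rel_affine m E hE hdim j J h
      exact ⟨g, fun _ => hg⟩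
    · exact ⟨0, fun h' => absurd h' h⟩
  choose g hg using hrel
  set D : ℕ := Finset.univ.sup fun j : Fin (n + 1) =>
    Finset.univ.sup fun J : Finset (Fin (n + 1)) => (g j J).totalDegree with hD
  have hgD : ∀ j J, (g j J).totalDegree ≤ D := by
    intro j J
    have h1 : (g j J).totalDegree ≤
        Finset.univ.sup fun J : Finset (Fin (n + 1)) => (g j J).totalDegree :=
      Finset.le_sup (f := fun J : Finset (Fin (n + 1)) => (g j J).totalDegree) (Finset.mem_univ J)
    refine h1.trans ?_
    exact Finset.le_sup (f := fun j : Fin (n + 1) =>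
      Finset.univ.sup fun J : Finset (Fin (n + 1)) => (g j J).totalDegree) (Finset.mem_univ j)
  obtain ⟨C₁, hC₁⟩ := count_proj (L := Qbar) (n + 1) m D
  -- the projections
  choose κ hκ0 hκ using fun J : Finset (Fin (n + 1)) =>
    north n e J.card (fun i => (J.equivFin.symm i : Fin (n + 1)))
  set K₂ : ℝ := ∑ J, κ J with hK₂
  have hK₂0 : 0 ≤ K₂ := Finset.sum_nonneg fun J _ => (hκ0 J).le
  refine ⟨(n + 1) * (C₁ * (K₂ + 1)) + 1, by positivity, fun T hT S hS => ?_⟩
  set R : ℕ := ⌊K₂ * T ^ (m * e + 1)⌋₊ with hR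
  have hT0 : (0 : ℝ) < T := by linarith
  have hone : ∀ j : Fin (n + 1), (S.filter (fun x => x j = 1)).card ≤ C₁ * R := by
    intro j
    refine hC₁ (g j) (fun J hJ => ⟨(hg j J hJ).1, hgD j J⟩) _ (fun t ht J hJ => ?_) R fun J hJ => ?_
    · rw [Finset.mem_filter] at ht
      exact (hg j J hJ).2 t (hS t ht.1).2.2.2 ht.2
    · refine Nat.le_floor ?_
      have h1 := hκ J T hT j (S.filter (fun x => x j = 1)) (fun x hx => by
        rw [Finset.mem_filter] at hx
        exact ⟨hx.2, (hS x hx.1).2.1, (hS x hx.1).2.2.1⟩)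
      have h2 : ((S.filter (fun x => x j = 1)).image (fun t (k : J) => t k)).card ≤
          ((S.filter (fun x => x j = 1)).image
            (fun x (i : Fin J.card) => x (J.equivFin.symm i : Fin (n + 1)))).card := by
        have h3 : ((S.filter (fun x => x j = 1)).image (fun t (k : J) => t k)) =
            ((S.filter (fun x => x j = 1)).image
            (fun x (i : Fin J.card) => x (J.equivFin.symm i : Fin (n + 1)))).image
              (fun w (k : J) => w (J.equivFin k)) := by
          rw [Finset.image_image]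
          refine Finset.image_congr fun x _ => ?_
          funext k
          simp
        rw [h3]
        exact Finset.card_image_le
      have h4 : T ^ (J.card * e + 1) ≤ T ^ (m * e + 1) :=
        pow_le_pow_right₀ hT (by nlinarith)
      have h5 : κ J ≤ K₂ := Finset.single_le_sum (fun J _ => (hκ0 J).le) (Finset.mem_univ J)
      calc (((S.filter (fun x => x j = 1)).image (fun t (k : J) => t k)).card : ℝ) ≤ _ :=
            Nat.cast_le.2 h2
        _ ≤ κ J * T ^ (J.card * e + 1) := h1
        _ ≤ κ J * T ^ (m * e + 1) := mul_le_mul_of_nonneg_left h4 (hκ0 J).le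
        _ ≤ _ := mul_le_mul_of_nonneg_right h5 (by positivity)
  have hcover : S ⊆ Finset.univ.biUnion (fun j : Fin (n + 1) => S.filter (fun x => x j = 1)) := by
    intro x hx
    obtain ⟨j, hj⟩ := (hS x hx).1
    rw [Finset.mem_biUnion]
    exact ⟨j, Finset.mem_univ j, Finset.mem_filter.2 ⟨hx, hj⟩⟩
  have h1 : S.card ≤ (n + 1) * (C₁ * R) := by
    refine (Finset.card_le_card hcover).trans (Finset.card_biUnion_le.trans ?_)
    refine (Finset.sum_le_card_nsmul _ _ _ fun j _ => hone j).trans (le_of_eq ?_)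
    rw [Finset.card_univ, Fintype.card_fin, smul_eq_mul]
  have h2 : (S.card : ℝ) ≤ (n + 1) * (C₁ * R) := by exact_mod_cast h1
  have h3 : (R : ℝ) ≤ K₂ * T ^ (m * e + 1) := Nat.floor_le (by positivity)
  have h4 : (0 : ℝ) < T ^ (m * e + 1) := by positivity
  calc (S.card : ℝ) ≤ (n + 1) * (C₁ * R) := h2
    _ ≤ (n + 1) * (C₁ * (K₂ * T ^ (m * e + 1))) := by
        refine mul_le_mul_of_nonneg_left (mul_le_mul_of_nonneg_left h3 (Nat.cast_nonneg _))
          (by positivity)
    _ ≤ _ := by
        have h5 : (0 : ℝ) ≤ (n + 1) * C₁ * T ^ (m * e + 1) := by positivity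
        nlinarith

end Pool.Agent.Helper17.AP
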