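import Pool.Agent.Helper17.AP.Trans
import Pool.Agent.Helper17.AP.Low
import Pool.Agent.Helper17.AP.VarP
import Pool.Agent.Helper17.RV.Sum

set_option autoImplicit false

/-! # Random complete intersections: algebraic points of bounded degree -/

namespace Pool.Agent.Helper17.AP

open Finset Pool.Agent.Helper259.AbsHt Module Pool.Agent.R870.RC MvPolynomial

variable {n : ℕ}

/-- the data attached to a point -/
theorem exists_data (n e q : ℕ) (he : 1 ≤ e) (hq : 1 ≤ q) : ∃ (K : ℝ) (M : ℕ), 0 ≤ K ∧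
    ∀ x : Fin (n + 1) → Qbar, finrank ℚ (fieldOf x) = e →
    ∃ (t : ℕ) (f : Polynomial ℤ) (μ : ℕ), t ≤ M ∧ f.natDegree = e ∧ 1 ≤ μ ∧
      (∃ i, (f.coeff i).natAbs = μ) ∧
      (∀ u : Polynomial ℤ, Polynomial.aeval (lt t x) u = 0 → f ∣ u) ∧
      e * absLogHeight x ≤ K + (1 + (n : ℝ) / q) * Real.log μ := by
  obtain ⟨C₁, M, h1⟩ := exists_prim n e q hq
  obtain ⟨K₂, h2⟩ := exists_primpoly e he
  have hm0 : (0 : ℝ) < q := by exact_mod_cast hq
  refine ⟨|(e * C₁ + (q + n) * K₂) / q|, M, abs_nonneg _, fun x hx => ?_⟩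
  obtain ⟨t, ht, hdeg, hht⟩ := h1 x hx
  obtain ⟨f, μ, hf, hμ, hi, hdvd, hlog⟩ := h2 (lt t x) hdeg
  refine ⟨t, f, μ, ht, hf, hμ, hi, hdvd, ?_⟩
  have h3 : (q : ℝ) * (e * absLogHeight x) ≤ (e * C₁ + (q + n) * K₂) + (q + n) * Real.log μ := by
    have h4 : (e : ℝ) * (q * absLogHeight x) ≤ e * (C₁ + (q + n) * absLogHeight ![1, lt t x]) :=
      mul_le_mul_of_nonneg_left hht (Nat.cast_nonneg _)
    have h5 : ((q : ℝ) + n) * (e * absLogHeight ![1, lt t x]) ≤ (q + n) * (K₂ + Real.log μ) :=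
      mul_le_mul_of_nonneg_left hlog (by positivity)
    nlinarith
  have h4 : (e : ℝ) * absLogHeight x ≤
      ((e * C₁ + (q + n) * K₂) + (q + n) * Real.log μ) / q := by
    rw [le_div_iff₀ hm0]
    linarith
  refine h4.trans ?_
  rw [add_div]
  refine add_le_add (le_abs_self _) (le_of_eq ?_)
  field_simp

/-- the sum of `1 / μ ^ q` -/
theorem sum_mu (A θ : ℝ) (hA : 0 ≤ A) (q : ℕ) (hθ : θ < q) : ∃ K : ℝ, 0 < K ∧
    ∀ (ι : Type) (S : Finset ι) (μ : ι → ℕ), (∀ x ∈ S, 1 ≤ μ x) →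
      (∀ T : ℕ, 1 ≤ T → ((S.filter (fun x => μ x ≤ T)).card : ℝ) ≤ A * (T : ℝ) ^ θ) →
      ∑ x ∈ S, 1 / (μ x : ℝ) ^ q ≤ K := by
  classical
  obtain ⟨K, hK, h⟩ := Pool.Agent.Helper17.RV.sum_weight A θ hA q hθ
  refine ⟨K, hK, fun ι S μ h1 hT => ?_⟩
  have h2 := h (fun b => ((S.filter (fun x => μ x = b)).card : ℝ)) (fun b => Nat.cast_nonneg _)
    (fun T hT1 => ?_) (∑ x ∈ S, μ x)
  · refine le_trans (le_of_eq ?_) h2
    have hmaps : ∀ x ∈ S, μ x ∈ Finset.Icc 1 (∑ x ∈ S, μ x) := fun x hx => by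
      rw [Finset.mem_Icc]
      exact ⟨h1 x hx, Finset.single_le_sum (fun _ _ => Nat.zero_le _) hx⟩
    rw [← Finset.sum_fiberwise_of_maps_to hmaps]
    refine Finset.sum_congr rfl fun b _ => ?_
    have h3 : ∀ x ∈ S.filter (fun x => μ x = b), 1 / (μ x : ℝ) ^ q = 1 / (b : ℝ) ^ q := by
      intro x hx
      rw [(Finset.mem_filter.1 hx).2]
    rw [Finset.sum_congr rfl h3, Finset.sum_const, nsmul_eq_mul]
  · refine le_trans (le_of_eq ?_) (hT T hT1)
    have hmaps : ∀ x ∈ S.filter (fun x => μ x ≤ T), μ x ∈ Finset.Icc 1 T := fun x hx => by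
      rw [Finset.mem_filter] at hx
      rw [Finset.mem_Icc]
      exact ⟨h1 x hx.1, hx.2⟩
    rw [Finset.card_eq_sum_card_fiberwise hmaps]
    push_cast
    refine Finset.sum_congr rfl fun b hb => ?_
    congr 2
    ext x
    rw [Finset.mem_filter, Finset.mem_filter, Finset.mem_filter]
    constructor
    · rintro ⟨hx, rfl⟩
      exact ⟨⟨hx, (Finset.mem_Icc.1 hb).2⟩, rfl⟩
    · rintro ⟨⟨hx, _⟩, hb⟩
      exact ⟨hx, hb⟩

/-- the finset of the systems -/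
noncomputable def SF (n : ℕ) {s : ℕ} (d : Fin s → ℕ) (H : ℕ) :
    Finset (Fin s → MvPolynomial (Fin (n + 1)) ℤ) := Fintype.piFinset (fun l => FF n (d l) H)

theorem mem_SF {s : ℕ} {d : Fin s → ℕ} {H : ℕ} {F : Fin s → MvPolynomial (Fin (n + 1)) ℤ} :
    F ∈ SF n d H ↔ F ∈ Systems n d H := by
  unfold SF
  rw [Fintype.mem_piFinset]
  exact forall_congr' fun i => mem_FF _

theorem FF_pos (n d H : ℕ) : (0 : ℝ) < ((FF n d H).card : ℝ) := by
  rw [card_FF]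
  exact_mod_cast Nat.pow_pos (by omega)

theorem card_SF {s : ℕ} (d : Fin s → ℕ) (H : ℕ) :
    ((SF n d H).card : ℝ) = ∏ i, ((FF n (d i) H).card : ℝ) := by
  unfold SF
  rw [Fintype.card_piFinset]
  push_cast
  rfl

theorem SF_pos {s : ℕ} (d : Fin s → ℕ) (H : ℕ) : (0 : ℝ) < ((SF n d H).card : ℝ) := by
  rw [card_SF]
  exact Finset.prod_pos fun i _ => FF_pos n (d i) H

open Classical in
theorem card_SF_zero {s : ℕ} (d : Fin s → ℕ) (H : ℕ) (x : Fin (n + 1) → Qbar) :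
    (((SF n d H).filter (fun F => ∀ i, aeval x (F i) = 0)).card : ℝ) =
      ∏ i, (((FF n (d i) H).filter (fun G => aeval x G = 0)).card : ℝ) := by
  have h1 : (SF n d H).filter (fun F => ∀ i, aeval x (F i) = 0) =
      Fintype.piFinset (fun i => (FF n (d i) H).filter (fun G => aeval x G = 0)) := by
    ext F
    unfold SF
    rw [Finset.mem_filter, Fintype.mem_piFinset, Fintype.mem_piFinset]
    constructor
    · rintro ⟨h, h'⟩ i
      exact Finset.mem_filter.2 ⟨h i, h' i⟩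
    · intro h
      exact ⟨fun i => (Finset.mem_filter.1 (h i)).1, fun i => (Finset.mem_filter.1 (h i)).2⟩
  rw [h1, Fintype.card_piFinset]
  push_cast
  rfl

open Classical in
/-- **upper bound for finite sets of points** -/
theorem upper_finite (n m s e : ℕ) (he : 1 ≤ e) (E : Set (MvPolynomial (Fin (n + 1)) ℚ))
    (hE : ∀ P ∈ E, ∃ e, P.IsHomogeneous e)
    (hdim : Algebra.trdeg ℚ (MvPolynomial (Fin (n + 1)) ℚ ⧸ Ideal.span E) = m + 1)
    (d : Fin s → ℕ) (hd : ∀ i, e ≤ d i + 1)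
    (hD : m * e + 2 ≤ ∑ i, (d i + 1 - e)) : ∃ K : ℝ, 0 < K ∧ ∀ (H : ℕ) (B : ℝ), 1 ≤ H → 1 ≤ B →
      ∀ X : Finset (Fin (n + 1) → Qbar), (∀ x ∈ X, IsPoint e B x ∧ OnC E x) →
      ∑ x ∈ X, (((SF n d H).filter (fun F => ∀ i, aeval x (F i) = 0)).card : ℝ) ≤
        K * (1 / (H : ℝ) ^ (e * s)) * (1 + B ^ (e * (m * e + 1)) / (H : ℝ) ^ (∑ i, (d i + 1 - e))) *
          ((SF n d H).card : ℝ) := by
  set q : ℕ := n * (m * e + 1) + 1 with hq
  obtain ⟨K₁, M, hK₁, h1⟩ := exists_data n e q he (by omega)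
  choose t f μ ht hf hμ hi hdvd hlog using h1
  obtain ⟨K₄, hK₄, h4⟩ := north_V e m E hE hdim
  choose κ hκ0 hκ using fun i => prop_zero n (d i) e M (hd i)
  set D := ∑ i, (d i + 1 - e) with hDdef
  set ρ : ℝ := 1 + (n : ℝ) / q with hρ
  have hρ0 : 0 ≤ ρ := by rw [hρ]; positivity
  set θ : ℝ := ρ * (m * e + 1) with hθ
  have hθD : θ < D := by
    have h5 : θ < m * e + 2 := by
      rw [hθ, hρ]
      have h6 : (0 : ℝ) < (q : ℝ) := by rw [hq]; positivity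
      have h7 : (n : ℝ) / q * (m * e + 1) < 1 := by
        rw [div_mul_eq_mul_div, div_lt_one h6, hq]
        push_cast
        linarith
      linarith
    have h8 : ((m * e + 2 : ℕ) : ℝ) ≤ D := by exact_mod_cast hD
    push_cast at h8
    linarith
  set A : ℝ := K₄ * (Real.exp K₁) ^ (m * e + 1) with hA
  have hA0 : 0 ≤ A := by rw [hA]; positivity
  obtain ⟨K₆, hK₆, h6⟩ := sum_mu A θ hA0 D hθD
  refine ⟨(∏ i, κ i) * (2 ^ D * (K₆ + K₄)), mul_pos (Finset.prod_pos fun i _ => hκ0 i)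
    (by positivity), fun H B hH hB X hX => ?_⟩
  have hH0 : (0 : ℝ) < H := by exact_mod_cast hH
  -- the number of points
  have hcard : (X.card : ℝ) ≤ K₄ * B ^ (e * (m * e + 1)) := by
    have h7 := h4 (B ^ e) (one_le_pow₀ hB) X (fun x hx => ?_)
    · rw [← pow_mul] at h7
      exact h7
    · obtain ⟨⟨hx1, hx2, hx3⟩, hx4⟩ := hX x hx
      refine ⟨hx1, hx2, ?_, hx4⟩
      rw [Real.log_pow]
      exact mul_le_mul_of_nonneg_left hx3 (Nat.cast_nonneg _)
  -- extend the functions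
  set ν : (Fin (n + 1) → Qbar) → ℕ := fun x => if h : finrank ℚ (fieldOf x) = e then μ x h else 1
    with hν
  have hν1 : ∀ x ∈ X, ∀ h : finrank ℚ (fieldOf x) = e, ν x = μ x h := fun x _ h => by
    rw [hν]; simp only [h, dif_pos]
  have hνpos : ∀ x ∈ X, 1 ≤ ν x := fun x hx => by
    rw [hν1 x hx (hX x hx).1.2.1]
    exact hμ x _
  have hsum : ∑ x ∈ X, 1 / (ν x : ℝ) ^ D ≤ K₆ := by
    refine h6 _ X ν hνpos fun T hT => ?_
    have hT0 : (0 : ℝ) < T := by exact_mod_cast hT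
    have hT1 : (1 : ℝ) ≤ T := by exact_mod_cast hT
    have h7 := h4 (Real.exp K₁ * (T : ℝ) ^ ρ)
      (one_le_mul_of_one_le_of_one_le (Real.one_le_exp hK₁) (Real.one_le_rpow hT1 hρ0))
      (X.filter (fun x => ν x ≤ T)) (fun x hx => ?_)
    · refine h7.trans (le_of_eq ?_)
      rw [mul_pow, hA, hθ, ← mul_assoc, Real.rpow_mul hT0.le]
      congr 1
      rw [← Real.rpow_natCast]
      push_cast
      rfl
    · rw [Finset.mem_filter] at hx
      obtain ⟨hx0, hxT⟩ := hx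
      obtain ⟨⟨hx1, hx2, _⟩, hx4⟩ := hX x hx0
      refine ⟨hx1, hx2, ?_, hx4⟩
      rw [Real.log_mul (Real.exp_pos _).ne' (Real.rpow_pos_of_pos hT0 _).ne', Real.log_exp,
        Real.log_rpow hT0]
      refine (hlog x hx2).trans (add_le_add le_rfl (mul_le_mul_of_nonneg_left ?_ hρ0))
      rw [hν1 x hx0 hx2] at hxT
      refine Real.log_le_log ?_ (by exact_mod_cast hxT)
      exact_mod_cast hμ x hx2
  -- one point
  have hone : ∀ x ∈ X, (((SF n d H).filter (fun F => ∀ i, aeval x (F i) = 0)).card : ℝ) ≤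
      (∏ i, κ i) * (1 / (H : ℝ) ^ (e * s)) * (2 ^ D * (1 / (ν x : ℝ) ^ D + 1 / (H : ℝ) ^ D)) *
        ((SF n d H).card : ℝ) := by
    intro x hx
    obtain ⟨⟨⟨j, hj⟩, hx2, _⟩, _⟩ := hX x hx
    have hν0 : (0 : ℝ) < ν x := by exact_mod_cast hνpos x hx
    rw [card_SF_zero, card_SF]
    have h7 : ∀ i ∈ (Finset.univ : Finset (Fin s)),
        (((FF n (d i) H).filter (fun G => aeval x G = 0)).card : ℝ) ≤
        (κ i * (1 / (H : ℝ) ^ e) * (1 / (ν x : ℝ) + 1 / (H : ℝ)) ^ (d i + 1 - e)) *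
          ((FF n (d i) H).card : ℝ) := by
      intro i _
      have h8 := hκ i j (t x hx2) x (f x hx2) (μ x hx2) (ht x hx2) hj (hf x hx2) (hμ x hx2)
        (hi x hx2) (hdvd x hx2) H hH
      rw [div_le_iff₀ (FF_pos n (d i) H), ← hν1 x hx hx2] at h8
      exact h8
    refine (Finset.prod_le_prod (fun i _ => Nat.cast_nonneg _) h7).trans ?_
    rw [Finset.prod_mul_distrib, Finset.prod_mul_distrib, Finset.prod_mul_distrib,
      Finset.prod_const, Finset.card_univ, Fintype.card_fin, Finset.prod_pow_eq_pow_sum, ← hDdef]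
    refine mul_le_mul_of_nonneg_right ?_ (Finset.prod_nonneg fun i _ => Nat.cast_nonneg _)
    rw [div_pow, one_pow, ← pow_mul]
    refine mul_le_mul_of_nonneg_left ?_ (mul_nonneg (Finset.prod_nonneg fun i _ => (hκ0 i).le)
      (by positivity))
    have h9 : (0 : ℝ) < 1 / (ν x : ℝ) := by positivity
    have h10 : (0 : ℝ) < 1 / (H : ℝ) := by positivity
    have h11 : (1 / (ν x : ℝ) + 1 / (H : ℝ)) ^ D ≤
        2 ^ D * ((1 / (ν x : ℝ)) ^ D + (1 / (H : ℝ)) ^ D) := by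
      rcases le_total (1 / (ν x : ℝ)) (1 / (H : ℝ)) with h | h
      · calc (1 / (ν x : ℝ) + 1 / (H : ℝ)) ^ D ≤ (2 * (1 / (H : ℝ))) ^ D :=
              pow_le_pow_left₀ (by positivity) (by linarith) _
          _ = 2 ^ D * (1 / (H : ℝ)) ^ D := mul_pow _ _ _
          _ ≤ _ := mul_le_mul_of_nonneg_left (by linarith [pow_pos h9 D]) (by positivity)
      · calc (1 / (ν x : ℝ) + 1 / (H : ℝ)) ^ D ≤ (2 * (1 / (ν x : ℝ))) ^ D :=
              pow_le_pow_left₀ (by positivity) (by linarith) _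
          _ = 2 ^ D * (1 / (ν x : ℝ)) ^ D := mul_pow _ _ _
          _ ≤ _ := mul_le_mul_of_nonneg_left (by linarith [pow_pos h10 D]) (by positivity)
    rw [one_div_pow, one_div_pow] at h11
    exact h11
  refine (Finset.sum_le_sum hone).trans ?_
  rw [← Finset.sum_mul, ← Finset.mul_sum, ← Finset.mul_sum, Finset.sum_add_distrib,
    Finset.sum_const, nsmul_eq_mul]
  refine mul_le_mul_of_nonneg_right ?_ (Nat.cast_nonneg _)
  have hP : 0 ≤ ∏ i, κ i := Finset.prod_nonneg fun i _ => (hκ0 i).le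
  have hQ : (0 : ℝ) ≤ 1 / (H : ℝ) ^ (e * s) := by positivity
  have hY : (0 : ℝ) ≤ B ^ (e * (m * e + 1)) / (H : ℝ) ^ D := by positivity
  have h12 : ∑ x ∈ X, 1 / (ν x : ℝ) ^ D + (X.card : ℝ) * (1 / (H : ℝ) ^ D) ≤
      (K₆ + K₄) * (1 + B ^ (e * (m * e + 1)) / (H : ℝ) ^ D) := by
    have h13 : (X.card : ℝ) * (1 / (H : ℝ) ^ D) ≤ K₄ * (B ^ (e * (m * e + 1)) / (H : ℝ) ^ D) := by
      rw [mul_one_div, ← mul_div_assoc]
      exact div_le_div_of_nonneg_right hcard (by positivity)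
    nlinarith [mul_nonneg hK₆.le hY]
  calc (∏ i, κ i) * (1 / (H : ℝ) ^ (e * s)) *
        (2 ^ D * (∑ x ∈ X, 1 / (ν x : ℝ) ^ D + (X.card : ℝ) * (1 / (H : ℝ) ^ D)))
      ≤ (∏ i, κ i) * (1 / (H : ℝ) ^ (e * s)) *
        (2 ^ D * ((K₆ + K₄) * (1 + B ^ (e * (m * e + 1)) / (H : ℝ) ^ D))) :=
        mul_le_mul_of_nonneg_left (mul_le_mul_of_nonneg_left h12 (by positivity))
          (mul_nonneg hP hQ)
    _ = _ := by ring

end Pool.Agent.Helper17.AP
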