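import Pool.Agent.Helper17.AP.Prim

set_option autoImplicit false

/-! # Height and primitive minimal polynomial of an algebraic number -/

namespace Pool.Agent.Helper17.AP

open Finset Pool.Agent.Helper259.AbsHt Pool.Agent.Helper259.HtPoly Module Polynomial

/-- conjugate numbers have the same height -/
theorem height_conj (α β : Qbar) (h : aeval β (minpoly ℚ α) = 0) :
    absLogHeight ![1, β] = absLogHeight ![1, α] := by
  have hα : IsIntegral ℚ α := ((AlgebraicClosure.isAlgebraic ℚ).isAlgebraic α).isIntegral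
  let L := IntermediateField.adjoin ℚ {α}
  have hfd : FiniteDimensional ℚ L := IntermediateField.adjoin.finiteDimensional hα
  have hNF : NumberField L :=
    { to_charZero := inferInstance
      to_finiteDimensional := hfd }
  have hmem : β ∈ (minpoly ℚ α).aroots Qbar := by
    rw [Polynomial.mem_aroots]
    exact ⟨minpoly.ne_zero hα, h⟩
  let φ : L →ₐ[ℚ] Qbar := (IntermediateField.algHomAdjoinIntegralEquiv ℚ hα).symm ⟨β, hmem⟩
  have hφ : φ (IntermediateField.AdjoinSimple.gen ℚ α) = β :=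
    IntermediateField.algHomAdjoinIntegralEquiv_symm_apply_gen ℚ hα _
  have h1 := absLogHeight_eq L (φ : L →+* Qbar)
    ![1, IntermediateField.AdjoinSimple.gen ℚ α]
  have h2 := absLogHeight_eq L (algebraMap L Qbar)
    ![1, IntermediateField.AdjoinSimple.gen ℚ α]
  rw [← h2] at h1
  have e1 : (fun i => (φ : L →+* Qbar) ((![1, IntermediateField.AdjoinSimple.gen ℚ α] :
      Fin 2 → L) i)) = ![1, β] := by
    funext i
    fin_cases i
    · simp
    · simpa using hφ
  have e2 : (fun i => (algebraMap L Qbar) ((![1, IntermediateField.AdjoinSimple.gen ℚ α] :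
      Fin 2 → L) i)) = ![1, α] := by
    funext i
    fin_cases i
    · simp
    · simp
  rw [e1, e2] at h1
  exact h1

/-- heights of the roots -/
theorem height_roots (N : ℕ) (hN : 1 ≤ N) : ∃ K : ℝ, 0 ≤ K ∧ ∀ s : Multiset Qbar,
    Multiset.card s ≤ N → (s.map (fun β => absLogHeight ![1, β])).sum ≤
      Multiset.card s * K + absLogHeight (cv N (s.map (fun β => X - C β)).prod) := by
  obtain ⟨C₀, hC₀⟩ := absLogHeight_root N
  set K : ℝ := |C₀| + Real.log (2 ^ N * (N + 1)) with hK
  have hlog : 0 ≤ Real.log ((2 : ℝ) ^ N * (N + 1)) := by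
    apply Real.log_nonneg
    have h1 : (1 : ℝ) ≤ 2 ^ N := one_le_pow₀ (by norm_num)
    have h2 : (1 : ℝ) ≤ (N : ℝ) + 1 := by
      have : (0 : ℝ) ≤ N := Nat.cast_nonneg N
      linarith
    nlinarith
  refine ⟨K, add_nonneg (abs_nonneg _) hlog, fun s => ?_⟩
  induction s using Multiset.induction_on with
  | empty =>
    intro _
    simp only [Multiset.map_zero, Multiset.sum_zero, Multiset.card_zero, Nat.cast_zero, zero_mul,
      zero_add]
    exact absLogHeight_nonneg _
  | cons β s ih =>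
    intro hs
    rw [Multiset.card_cons] at hs
    have h1 := ih (by omega)
    rw [Multiset.map_cons, Multiset.sum_cons, Multiset.map_cons, Multiset.prod_cons,
      Multiset.card_cons]
    have hp : (s.map (fun β => X - C β)).prod ≠ 0 :=
      (monic_multiset_prod_of_monic _ _ fun β _ => monic_X_sub_C β).ne_zero
    have hd : (s.map (fun β => X - C β)).prod.natDegree = Multiset.card s := by
      rw [natDegree_multiset_prod_X_sub_C_eq_card]
    have h2 := absLogHeight_polymul N (X - C β) (s.map (fun β => X - C β)).prod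
      (X_sub_C_ne_zero β) hp (by rw [natDegree_X_sub_C, hd]; omega)
    have h3 := hC₀ (X - C β) β (X_sub_C_ne_zero β) (by rw [natDegree_X_sub_C]; omega) (by simp)
    have h4 : C₀ ≤ |C₀| := le_abs_self _
    push_cast
    rw [hK] at h1 ⊢
    linarith

/-- a primitive integral multiple -/
theorem exists_primitive (p : ℚ[X]) (hp : p ≠ 0) : ∃ (f : ℤ[X]) (c : ℚ), c ≠ 0 ∧ f.IsPrimitive ∧
    f.map (Int.castRingHom ℚ) = C c * p := by
  obtain ⟨b, hbM, hb⟩ := IsLocalization.integerNormalization_spec (nonZeroDivisors ℤ) p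
  set q := IsLocalization.integerNormalization (nonZeroDivisors ℤ) p with hq
  have hb0 : (b : ℤ) ≠ 0 := nonZeroDivisors.ne_zero hbM
  have hbq : ((b : ℤ) : ℚ) ≠ 0 := by exact_mod_cast hb0
  have hq1 : q.map (Int.castRingHom ℚ) = C ((b : ℤ) : ℚ) * p := by
    rw [← algebraMap_int_eq, hb]
    ext i
    simp
  have hq0 : q ≠ 0 := by
    intro h
    rw [h, Polynomial.map_zero] at hq1
    exact (mul_ne_zero (C_ne_zero.2 hbq) hp) hq1.symm
  have hc0 : q.content ≠ 0 := by
    rwa [Ne, content_eq_zero_iff]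
  have hcq : ((q.content : ℤ) : ℚ) ≠ 0 := by exact_mod_cast hc0
  refine ⟨q.primPart, ((b : ℤ) : ℚ) / (q.content : ℤ), div_ne_zero hbq hcq, q.isPrimitive_primPart, ?_⟩
  have h1 : q.map (Int.castRingHom ℚ) =
      C ((q.content : ℤ) : ℚ) * q.primPart.map (Int.castRingHom ℚ) := by
    conv_lhs => rw [q.eq_C_content_mul_primPart]
    rw [Polynomial.map_mul, map_C]
    rfl
  rw [hq1] at h1
  have h2 : C (((b : ℤ) : ℚ) / (q.content : ℤ)) * p =
      C (((q.content : ℤ) : ℚ)⁻¹) * (C ((b : ℤ) : ℚ) * p) := by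
    rw [← mul_assoc, ← C_mul]
    congr 2
    rw [div_eq_inv_mul]
  rw [h2, h1, ← mul_assoc, ← C_mul, inv_mul_cancel₀ hcq, C_1, one_mul]

theorem gcd_primitive (f : ℤ[X]) (hf : f.IsPrimitive) (N : ℕ) (hN : f.natDegree ≤ N) :
    Finset.univ.gcd (cv N f) = 1 := by
  have h1 : C (Finset.univ.gcd (cv N f)) ∣ f := by
    rw [C_dvd_iff_dvd_coeff]
    intro i
    by_cases hi : i ≤ N
    · exact Finset.gcd_dvd (f := cv N f) (Finset.mem_univ (⟨i, by omega⟩ : Fin (N + 1)))
    · rw [coeff_eq_zero_of_natDegree_lt (by omega)]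
      exact dvd_zero _
  have h2 := hf _ h1
  have h3 : normalize (Finset.univ.gcd (cv N f)) = 1 := normalize_eq_one.2 h2
  rwa [Finset.normalize_gcd] at h3

/-- **the primitive minimal polynomial** -/
theorem exists_primpoly (e : ℕ) (he : 1 ≤ e) : ∃ K : ℝ, ∀ α : Qbar,
    (minpoly ℚ α).natDegree = e → ∃ (f : ℤ[X]) (μ : ℕ), f.natDegree = e ∧ 1 ≤ μ ∧
      (∃ i, (f.coeff i).natAbs = μ) ∧ (∀ u : ℤ[X], aeval α u = 0 → f ∣ u) ∧
      e * absLogHeight ![1, α] ≤ K + Real.log μ := by
  obtain ⟨K, hK0, hK⟩ := height_roots e he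
  refine ⟨e * K, fun α hα => ?_⟩
  have hint : IsIntegral ℚ α := ((AlgebraicClosure.isAlgebraic ℚ).isAlgebraic α).isIntegral
  set p := minpoly ℚ α with hp
  have hp0 : p ≠ 0 := minpoly.ne_zero hint
  obtain ⟨f, c, hc, hprim, hf⟩ := exists_primitive p hp0
  have hdeg : f.natDegree = e := by
    rw [← hα, ← natDegree_map_eq_of_injective (f := Int.castRingHom ℚ) Int.cast_injective f, hf,
      natDegree_C_mul hc]
  -- the roots
  set P := p.map (algebraMap ℚ Qbar) with hP
  have hmonic : P.Monic := (minpoly.monic hint).map _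
  have hsplit : P.Splits := IsAlgClosed.splits P
  have hprod : P = (P.roots.map (fun β => X - C β)).prod := hsplit.eq_prod_roots_of_monic hmonic
  have hcard : Multiset.card P.roots = e := by
    rw [← hα, ← natDegree_map (algebraMap ℚ Qbar), ← hP]
    conv_rhs => rw [hprod]
    rw [natDegree_multiset_prod_X_sub_C_eq_card]
  have h1 := hK P.roots hcard.le
  rw [← hprod, hcard] at h1
  have h2 : (P.roots.map (fun β => absLogHeight ![1, β])).sum = e * absLogHeight ![1, α] := by
    have h3 : P.roots.map (fun β => absLogHeight ![1, β]) =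
        P.roots.map (fun _ => absLogHeight ![1, α]) := by
      refine Multiset.map_congr rfl fun β hβ => ?_
      refine height_conj α β ?_
      rw [hP, mem_roots (Polynomial.map_ne_zero hp0), IsRoot.def, eval_map_algebraMap] at hβ
      exact hβ
    rw [h3, Multiset.map_const', Multiset.sum_replicate, hcard, nsmul_eq_mul]
  rw [h2] at h1
  -- the height of `f`
  have h4 := absLogHeight_int (cv e f) (gcd_primitive f hprim e hdeg.le)
  have h5 : (fun i => ((cv e f i : ℤ) : Qbar)) = ((c : ℚ) : Qbar) • cv e P := by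
    funext i
    have h6 := congrArg (fun q : ℚ[X] => ((q.coeff i : ℚ) : Qbar)) hf
    simp only [coeff_map, coeff_C_mul] at h6
    simp only [Pi.smul_apply, smul_eq_mul, cv, hP, coeff_map]
    have h7 : ((Int.castRingHom ℚ (f.coeff i) : ℚ) : Qbar) = ((f.coeff i : ℤ) : Qbar) := by simp
    rw [← h7, h6]
    push_cast
    rfl
  have hc' : ((c : ℚ) : Qbar) ≠ 0 := by exact_mod_cast hc
  rw [h5, absLogHeight_smul _ hc'] at h4
  -- the maximum
  obtain ⟨i, hi⟩ : ∃ i : Fin (e + 1), (⨆ j, |cv e f j| : ℤ) = |cv e f i| := by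
    obtain ⟨i, hi⟩ := exists_eq_ciSup_of_finite (f := fun j => |cv e f j|)
    exact ⟨i, hi.symm⟩
  refine ⟨f, (f.coeff i).natAbs, hdeg, ?_, ⟨i, rfl⟩, ?_, ?_⟩
  · by_contra hcon
    have h8 : (f.coeff i).natAbs = 0 := by omega
    have h9 : ∀ j : Fin (e + 1), |cv e f j| ≤ 0 := by
      intro j
      have h10 : |cv e f j| ≤ ⨆ j, |cv e f j| := Finite.le_ciSup (fun j => |cv e f j|) j
      rw [hi] at h10
      have h11 : |cv e f i| = 0 := by
        show |f.coeff i| = 0
        rw [Int.natAbs_eq_zero.1 h8, abs_zero]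
      rwa [h11] at h10
    have h12 := h9 ⟨e, by omega⟩
    have h13 : f.coeff e = 0 := abs_nonpos_iff.1 h12
    have h14 : f ≠ 0 := hprim.ne_zero
    apply h14
    rw [← leadingCoeff_eq_zero, leadingCoeff, hdeg, h13]
  · intro u hu
    rw [IsPrimitive.Int.dvd_iff_map_cast_dvd_map_cast _ _ hprim, hf]
    rw [C_mul_dvd hc]
    refine minpoly.dvd ℚ α ?_
    have h8 : aeval α (u.map (Int.castRingHom ℚ)) = aeval α u := by
      rw [← algebraMap_int_eq, aeval_map_algebraMap]
    rw [h8, hu]
  · have h8 : ((⨆ j, |cv e f j| : ℤ) : ℝ) = ((f.coeff i).natAbs : ℝ) := by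
      rw [hi]
      show ((|f.coeff i| : ℤ) : ℝ) = _
      rw [Int.abs_eq_natAbs, Int.cast_natCast]
    rw [h8] at h4
    linarith

end Pool.Agent.Helper17.AP
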