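import Pool.Agent.Helper17.AP.MinP

set_option autoImplicit false

/-! # The number of integral relations between the powers of an algebraic number -/

namespace Pool.Agent.Helper17.AP

open Finset Pool.Agent.Helper259.AbsHt Pool.Agent.Helper259.HtPoly Module Polynomial

/-- the polynomial with given coefficients -/
noncomputable def pol {d : ℕ} (u : Fin (d + 1) → ℤ) : ℤ[X] := ∑ k : Fin (d + 1), C (u k) * X ^ (k : ℕ)

theorem coeff_pol {d : ℕ} (u : Fin (d + 1) → ℤ) (k : Fin (d + 1)) : (pol u).coeff k = u k := by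
  unfold pol
  rw [finsetSum_coeff, Finset.sum_eq_single k]
  · rw [coeff_C_mul_X_pow, if_pos rfl]
  · intro b _ hb
    rw [coeff_C_mul_X_pow, if_neg (fun h => hb (Fin.ext h.symm))]
  · intro h
    exact absurd (Finset.mem_univ _) h

theorem natDegree_pol {d : ℕ} (u : Fin (d + 1) → ℤ) : (pol u).natDegree ≤ d := by
  unfold pol
  refine natDegree_sum_le_of_forall_le _ _ fun k _ => ?_
  refine (natDegree_C_mul_X_pow_le _ _).trans (by omega)

theorem aeval_pol {d : ℕ} (u : Fin (d + 1) → ℤ) (α : Qbar) :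
    aeval α (pol u) = ∑ k : Fin (d + 1), (u k : Qbar) * α ^ (k : ℕ) := by
  unfold pol
  rw [map_sum]
  refine Finset.sum_congr rfl fun k _ => ?_
  simp

/-- bound for the coefficients of a factor -/
theorem factor_bound (d : ℕ) (f h : ℤ[X]) (μ H : ℕ) (hμ : 1 ≤ μ)
    (hi : ∃ i, (f.coeff i).natAbs = μ) (hdeg : f.natDegree + h.natDegree ≤ d)
    (hH : ∀ k : ℕ, k ≤ d → ((f * h).coeff k).natAbs ≤ H) (j : ℕ) :
    (h.coeff j).natAbs * μ ≤ 2 ^ d * (d + 1) * H := by
  obtain ⟨i, hi⟩ := hi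
  by_cases hj : h.coeff j = 0
  · rw [hj, Int.natAbs_zero, zero_mul]
    exact Nat.zero_le _
  have hid : i ≤ d := by
    by_contra hcon
    have : f.coeff i = 0 := coeff_eq_zero_of_natDegree_lt (by omega)
    rw [this, Int.natAbs_zero] at hi
    omega
  have hjd : j ≤ d := by
    by_contra hcon
    exact hj (coeff_eq_zero_of_natDegree_lt (by omega))
  set F := f.map (Int.castRingHom ℂ) with hF
  set G := h.map (Int.castRingHom ℂ) with hG
  have key := complex_bound d F G (by
    rw [hF, hG, natDegree_map_eq_of_injective Int.cast_injective,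
      natDegree_map_eq_of_injective Int.cast_injective]
    exact hdeg)
  have h1 : (μ : ℝ) ≤ ⨆ i : Fin (d + 1), ‖F.coeff i‖ := by
    have h2 := Finite.le_ciSup (fun i : Fin (d + 1) => ‖F.coeff i‖) ⟨i, by omega⟩
    refine le_trans (le_of_eq ?_) h2
    simp only [hF, coeff_map]
    rw [← hi]
    simp
  have h2 : ((h.coeff j).natAbs : ℝ) ≤ ⨆ i : Fin (d + 1), ‖G.coeff i‖ := by
    have h2 := Finite.le_ciSup (fun i : Fin (d + 1) => ‖G.coeff i‖) ⟨j, by omega⟩
    refine le_trans (le_of_eq ?_) h2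
    simp only [hG, coeff_map]
    simp
  have h3 : (⨆ i : Fin (d + 1), ‖(F * G).coeff i‖) ≤ H := by
    refine ciSup_le fun k => ?_
    have h4 := hH k (by omega)
    rw [hF, hG, ← Polynomial.map_mul, coeff_map]
    have h5 : ‖(Int.castRingHom ℂ) ((f * h).coeff k)‖ = (((f * h).coeff k).natAbs : ℝ) := by
      simp
    rw [h5]
    exact_mod_cast h4
  have h4 : ((h.coeff j).natAbs : ℝ) * μ ≤ 2 ^ d * (d + 1) * H := by
    calc ((h.coeff j).natAbs : ℝ) * μ ≤
        (⨆ i : Fin (d + 1), ‖G.coeff i‖) * (⨆ i : Fin (d + 1), ‖F.coeff i‖) :=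
          mul_le_mul h2 h1 (Nat.cast_nonneg _) (Real.iSup_nonneg fun _ => norm_nonneg _)
      _ = (⨆ i : Fin (d + 1), ‖F.coeff i‖) * (⨆ i : Fin (d + 1), ‖G.coeff i‖) := mul_comm _ _
      _ ≤ (2 ^ d * (d + 1)) * ⨆ i : Fin (d + 1), ‖(F * G).coeff i‖ := key
      _ ≤ (2 ^ d * (d + 1)) * H := mul_le_mul_of_nonneg_left h3 (by positivity)
  exact_mod_cast h4

/-- **the number of relations** -/
theorem mult_le (d e : ℕ) (f : ℤ[X]) (μ : ℕ) (hf : f.natDegree = e) (hμ : 1 ≤ μ)
    (hi : ∃ i, (f.coeff i).natAbs = μ) (H : ℕ) (U : Finset (Fin (d + 1) → ℤ))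
    (hU : ∀ u ∈ U, (∀ k, |u k| ≤ H) ∧ f ∣ pol u) :
    U.card ≤ (2 * (2 ^ d * (d + 1) * H / μ) + 1) ^ (d + 1 - e) := by
  classical
  set R := 2 ^ d * (d + 1) * H / μ with hR
  have hf0 : f ≠ 0 := by
    rintro rfl
    obtain ⟨i, hi⟩ := hi
    simp at hi
    omega
  have hex : ∀ u : Fin (d + 1) → ℤ, ∃ h : ℤ[X], u ∈ U → pol u = f * h := by
    intro u
    by_cases hu : u ∈ U
    · obtain ⟨h, hh⟩ := (hU u hu).2
      exact ⟨h, fun _ => hh⟩
    · exact ⟨0, fun h => absurd h hu⟩
  choose q hq using hex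
  have hdeg : ∀ u ∈ U, q u ≠ 0 → f.natDegree + (q u).natDegree ≤ d := by
    intro u hu h0
    rw [← natDegree_mul hf0 h0, ← hq u hu]
    exact natDegree_pol u
  have hvan : ∀ u ∈ U, ∀ j, d + 1 - e ≤ j → (q u).coeff j = 0 := by
    intro u hu j hj
    by_cases h0 : q u = 0
    · rw [h0, coeff_zero]
    · have := hdeg u hu h0
      exact coeff_eq_zero_of_natDegree_lt (by omega)
  have hmaps : ∀ u ∈ U, (fun j : Fin (d + 1 - e) => (q u).coeff j) ∈
      Fintype.piFinset (fun _ : Fin (d + 1 - e) => Finset.Icc (-(R : ℤ)) R) := by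
    intro u hu
    rw [Fintype.mem_piFinset]
    intro j
    rw [Finset.mem_Icc, ← abs_le]
    by_cases h0 : q u = 0
    · rw [h0]; simp
    · have h1 := factor_bound d f (q u) μ H hμ hi (hdeg u hu h0) (fun k hk => by
        rw [← hq u hu]
        have h2 := coeff_pol u ⟨k, by omega⟩
        simp only at h2
        rw [h2]
        have h3 := (hU u hu).1 ⟨k, by omega⟩
        rw [Int.abs_eq_natAbs] at h3
        exact_mod_cast h3) j
      have h2 : ((q u).coeff j).natAbs ≤ R := (Nat.le_div_iff_mul_le (by omega)).2 h1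
      rw [Int.abs_eq_natAbs]
      exact_mod_cast h2
  have hinj : Set.InjOn (fun u => fun j : Fin (d + 1 - e) => (q u).coeff j) (U : Set _) := by
    intro u hu v hv huv
    have h1 : q u = q v := by
      ext j
      by_cases hj : j < d + 1 - e
      · exact congrFun huv ⟨j, hj⟩
      · rw [hvan u hu j (by omega), hvan v hv j (by omega)]
    have h2 : pol u = pol v := by rw [hq u hu, hq v hv, h1]
    funext k
    rw [← coeff_pol u k, ← coeff_pol v k, h2]
  refine (Finset.card_le_card_of_injOn _ hmaps hinj).trans (le_of_eq ?_)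
  rw [Fintype.card_piFinset, Finset.prod_const, Finset.card_univ, Fintype.card_fin, Int.card_Icc]
  congr 1
  omega

end Pool.Agent.Helper17.AP
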