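import Pool.Agent.Helper17.AP.Prim

set_option autoImplicit false

/-! # Counting algebraic points of bounded height and degree -/

namespace Pool.Agent.Helper17.AP

open Finset Pool.Agent.Helper259.AbsHt Module Polynomial

variable {n : ℕ}

/-- the height of a product of vectors -/
theorem height_prod_vec {e : ℕ} (y : Fin e → Fin (n + 1) → Qbar) (hy : ∀ a, y a ≠ 0) :
    absLogHeight (fun I : Fin e → Fin (n + 1) => ∏ a, y a (I a)) = ∑ a, absLogHeight (y a) := by
  obtain ⟨L, hL, hmem⟩ := exists_nf (Set.range (fun p : Fin e × Fin (n + 1) => y p.1 p.2))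
    (Set.finite_range _)
  have hz : ∀ a, ∃ z : Fin (n + 1) → L, y a = fun i => (z i : Qbar) := fun a =>
    lift_vec L (y a) fun i => hmem _ ⟨(a, i), rfl⟩
  choose z hz using hz
  have e1 : ∀ a, absLogHeight (y a) = Height.logHeight (z a) / finrank ℚ L := by
    intro a
    rw [hz a, val_eq]
  rw [Finset.sum_congr rfl fun a _ => e1 a, ← Finset.sum_div]
  have h1 := Height.logHeight_fun_prod_eq (x := z) (fun a h => by
    apply hy a
    rw [hz a, h]
    funext i
    simp)
  rw [← h1, ← val_eq]
  congr 1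
  funext I
  push_cast
  refine Finset.prod_congr rfl fun a _ => ?_
  rw [hz a]

theorem height_cj (x : Fin (n + 1) → Qbar) (σ : fieldOf x →ₐ[ℚ] Qbar) :
    absLogHeight (cj x σ) = absLogHeight x := by
  have h1 := absLogHeight_eq (fieldOf x) (σ : fieldOf x →+* Qbar) (xf x)
  have h2 := absLogHeight_eq (fieldOf x) (algebraMap (fieldOf x) Qbar) (xf x)
  have e2 : (fun i => algebraMap (fieldOf x) Qbar (xf x i)) = x := rfl
  rw [e2] at h2
  rw [h2, ← h1]
  rfl

/-- `∏ (Z - y_a (i))` is a linear combination of the products of the coordinates -/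
theorem coeff_comb (e : ℕ) (j i : Fin (n + 1)) (m : ℕ) :
    ∃ c : (Fin e → Fin (n + 1)) → Qbar, ∀ y : Fin e → Fin (n + 1) → Qbar, (∀ a, y a j = 1) →
      (∏ a, (X - C (y a i))).coeff m = ∑ I, c I * ∏ a, y a (I a) := by
  classical
  set p : Fin (n + 1) → Qbar[X] := fun k => (if k = j then X else 0) - (if k = i then 1 else 0)
    with hp
  refine ⟨fun I => (∏ a, p (I a)).coeff m, fun y hy => ?_⟩
  have h1 : ∀ a, X - C (y a i) = ∑ k, C (y a k) * p k := by
    intro a
    have h2 : ∀ k, C (y a k) * p k = (if k = j then X else 0) - (if k = i then C (y a i) else 0) := by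
      intro k
      rw [hp]
      simp only
      rw [mul_sub]
      congr 1
      · by_cases hkj : k = j
        · subst hkj
          rw [if_pos rfl, hy a, C_1, one_mul]
        · rw [if_neg hkj, mul_zero]
      · by_cases hki : k = i
        · subst hki
          rw [if_pos rfl, if_pos rfl, mul_one]
        · rw [if_neg hki, if_neg hki, mul_zero]
    rw [Finset.sum_congr rfl fun k _ => h2 k, Finset.sum_sub_distrib, Finset.sum_ite_eq',
      Finset.sum_ite_eq', if_pos (Finset.mem_univ _), if_pos (Finset.mem_univ _)]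
  rw [Finset.prod_congr rfl fun a _ => h1 a, Finset.prod_univ_sum, Fintype.piFinset_univ,
    finsetSum_coeff]
  refine Finset.sum_congr rfl fun I _ => ?_
  rw [Finset.prod_mul_distrib, ← map_prod, coeff_C_mul, mul_comm]

/-- the characteristic polynomials of the coordinates -/
noncomputable def cp (x : Fin (n + 1) → Qbar) (i : Fin (n + 1)) : Qbar[X] :=
  ∏ σ : fieldOf x →ₐ[ℚ] Qbar, (X - C (cj x σ i))

/-- the vector of all the coefficients -/
noncomputable def wv {k : ℕ} (x : Fin (n + 1) → Qbar) (v : Fin k → Fin (n + 1)) (e : ℕ) :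
    Option (Fin k × Fin e) → Qbar
  | none => 1
  | some p => (cp x (v p.1)).coeff p.2

/-- height of the vector of coefficients -/
theorem height_wv (n e k : ℕ) (v : Fin k → Fin (n + 1)) : ∃ K : ℝ, ∀ (x : Fin (n + 1) → Qbar)
    (j : Fin (n + 1)), x j = 1 →
    finrank ℚ (fieldOf x) = e → absLogHeight (wv x v e) ≤ K + e * absLogHeight x := by
  classical
  have hex : ∀ (j : Fin (n + 1)) (p : Fin k × Fin e), ∃ c : (Fin e → Fin (n + 1)) → Qbar,
      ∀ y : Fin e → Fin (n + 1) → Qbar, (∀ a, y a j = 1) →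
      (∏ a, (X - C (y a (v p.1)))).coeff (p.2 : ℕ) = ∑ I, c I * ∏ a, y a (I a) :=
    fun j p => coeff_comb e j (v p.1) p.2
  choose c hc using hex
  let A : Fin (n + 1) → Option (Fin k × Fin e) × (Fin e → Fin (n + 1)) → Qbar := fun j q =>
    match q.1 with
    | none => if q.2 = fun _ => j then 1 else 0
    | some p => c j p q.2
  refine ⟨Real.log (Nat.card (Fin e → Fin (n + 1))) + ∑ j, absLogHeight (A j),
    fun x j hxj hx => ?_⟩
  have hcard : Fintype.card (fieldOf x →ₐ[ℚ] Qbar) = e := by
    rw [AlgHom.card ℚ (fieldOf x) Qbar, hx]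
  let ε : Fin e ≃ (fieldOf x →ₐ[ℚ] Qbar) := (Fintype.equivFinOfCardEq hcard).symm
  set y : Fin e → Fin (n + 1) → Qbar := fun a => cj x (ε a) with hy
  have hyj : ∀ a, y a j = 1 := by
    intro a
    have h1 : xf x j = 1 := Subtype.ext hxj
    show (ε a) (xf x j) = 1
    rw [h1, map_one]
  have h1 := absLogHeight_linear (A j) (fun I : Fin e → Fin (n + 1) => ∏ a, y a (I a))
  have e1 : (fun q : Option (Fin k × Fin e) => ∑ I : Fin e → Fin (n + 1), A j (q, I) *
      ∏ a, y a (I a)) = wv x v e := by
    funext q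
    match q with
    | none =>
      show ∑ I : Fin e → Fin (n + 1), (if I = fun _ => j then (1 : Qbar) else 0) *
        ∏ a, y a (I a) = 1
      rw [Finset.sum_eq_single (fun _ => j)]
      · rw [if_pos rfl, one_mul]
        exact Finset.prod_eq_one fun a _ => hyj a
      · intro I _ hI
        rw [if_neg hI, zero_mul]
      · intro h
        exact absurd (Finset.mem_univ _) h
    | some p =>
      show ∑ I : Fin e → Fin (n + 1), c j p I * ∏ a, y a (I a) = (cp x (v p.1)).coeff p.2
      rw [← hc j p y hyj]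
      unfold cp
      rw [← Equiv.prod_comp ε]
  rw [e1, height_prod_vec y (fun a h => by
    have := hyj a
    rw [h] at this
    exact zero_ne_one this)] at h1
  have h2 : ∑ a, absLogHeight (y a) = e * absLogHeight x := by
    rw [Finset.sum_congr rfl fun a _ => height_cj x (ε a), Finset.sum_const, Finset.card_univ,
      Fintype.card_fin, nsmul_eq_mul]
  rw [h2] at h1
  have h3 : absLogHeight (A j) ≤ ∑ j, absLogHeight (A j) :=
    Finset.single_le_sum (fun j _ => absLogHeight_nonneg (A j)) (Finset.mem_univ j)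
  linarith

theorem galQ : IsGalois ℚ Qbar := by
  have h1 : Algebra.IsAlgebraic ℚ Qbar := AlgebraicClosure.isAlgebraic ℚ
  have h2 : IsAlgClosure ℚ Qbar := ⟨inferInstance, h1⟩
  have h3 : Normal ℚ Qbar := IsAlgClosure.normal ℚ _
  exact IsGalois.mk

/-- the coefficients are rational -/
theorem cp_rational (x : Fin (n + 1) → Qbar) (i : Fin (n + 1)) (m : ℕ) :
    ∃ r : ℚ, (r : Qbar) = (cp x i).coeff m := by
  have hgal := galQ
  have h1 : (cp x i).coeff m ∈ Set.range (algebraMap ℚ Qbar) := by
    rw [InfiniteGalois.mem_range_algebraMap_iff_fixed]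
    intro g
    have h2 : (cp x i).map (g : Qbar →+* Qbar) = cp x i := by
      unfold cp
      rw [Polynomial.map_prod]
      have hbij : Function.Bijective (fun σ : fieldOf x →ₐ[ℚ] Qbar => (g : Qbar →ₐ[ℚ] Qbar).comp σ) := by
        rw [Fintype.bijective_iff_injective_and_card]
        refine ⟨fun σ τ h => ?_, rfl⟩
        refine AlgHom.ext fun z => ?_
        have := congrArg (fun φ : fieldOf x →ₐ[ℚ] Qbar => φ z) h
        exact g.injective this
      refine Function.Bijective.prod_comp (g := fun σ : fieldOf x →ₐ[ℚ] Qbar => X - C (cj x σ i))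
        hbij |>.symm ▸ ?_
      refine Finset.prod_congr rfl fun σ _ => ?_
      rw [Polynomial.map_sub, map_X, map_C]
      rfl
    have h3 := congrArg (fun q => q.coeff m) h2
    simp only [coeff_map] at h3
    exact h3
  obtain ⟨r, hr⟩ := h1
  exact ⟨r, hr⟩

/-- an integral vector -/
theorem exists_int {ι : Type*} [Fintype ι] [Nonempty ι] (r : ι → ℚ) (hr : r ≠ 0) :
    ∃ (c : ℚ) (z : ι → ℤ), c ≠ 0 ∧ Finset.univ.gcd z = 1 ∧ ∀ i, (z i : ℚ) = c * r i := by
  classical
  set D : ℤ := ∏ i, (r i).den with hD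
  have hD0 : D ≠ 0 := by
    rw [hD]
    exact Finset.prod_ne_zero_iff.2 fun i _ => by exact_mod_cast (r i).den_ne_zero
  have h1 : ∀ i, ∃ a : ℤ, (a : ℚ) = D * r i := by
    intro i
    have h2 : ((r i).den : ℤ) ∣ D := Finset.dvd_prod_of_mem (fun i => ((r i).den : ℤ)) (Finset.mem_univ i)
    obtain ⟨b, hb⟩ := h2
    refine ⟨b * (r i).num, ?_⟩
    rw [hb]
    push_cast
    have h3 : r i * (r i).den = (r i).num := Rat.mul_den_eq_num (r i)
    rw [← h3]
    ring
  choose a ha using h1
  obtain ⟨z, hz, hgcd⟩ := Finset.extract_gcd a (Finset.univ_nonempty (α := ι))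
  set g := Finset.univ.gcd a with hg
  have hg0 : g ≠ 0 := by
    intro h
    apply hr
    funext i
    have h5 : a i = 0 := by
      rw [hz i (Finset.mem_univ i), h, zero_mul]
    have h6 := ha i
    rw [h5, Int.cast_zero] at h6
    have h7 : (D : ℚ) ≠ 0 := by exact_mod_cast hD0
    exact (mul_eq_zero.1 h6.symm).resolve_left h7
  have hgq : (g : ℚ) ≠ 0 := by exact_mod_cast hg0
  have hDq : (D : ℚ) ≠ 0 := by exact_mod_cast hD0
  refine ⟨(D : ℚ) / g, z, div_ne_zero hDq hgq, hgcd, fun i => ?_⟩
  have h8 := ha i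
  rw [hz i (Finset.mem_univ i)] at h8
  push_cast at h8
  field_simp
  linarith

/-- the polynomial defined by the integral vector -/
noncomputable def pz {n e : ℕ} (z : Option (Fin n × Fin e) → ℤ) (i : Fin n) : Qbar[X] :=
  X ^ e + ∑ m : Fin e, C ((z (some (i, m)) : Qbar) / (z none : Qbar)) * X ^ (m : ℕ)

open Classical in
theorem pz_deg {n e : ℕ} (z : Option (Fin n × Fin e) → ℤ) (i : Fin n) :
    (pz z i).roots.toFinset.card ≤ e := by
  refine (Multiset.toFinset_card_le _).trans ((card_roots' _).trans ?_)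
  unfold pz
  refine (natDegree_add_le _ _).trans (max_le (natDegree_X_pow_le _) ?_)
  refine natDegree_sum_le_of_forall_le _ _ fun m _ => ?_
  refine (natDegree_C_mul_X_pow_le _ _).trans (by omega)

theorem pz_ne {n e : ℕ} (z : Option (Fin n × Fin e) → ℤ) (i : Fin n) : pz z i ≠ 0 := by
  intro h
  have h1 : (pz z i).coeff e = 1 := by
    unfold pz
    rw [coeff_add, coeff_X_pow, if_pos rfl, finsetSum_coeff, Finset.sum_eq_zero, add_zero]
    intro m _
    rw [coeff_C_mul_X_pow, if_neg (by omega)]
  rw [h, coeff_zero] at h1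
  exact zero_ne_one h1

/-- the characteristic polynomial is monic of degree `e` -/
theorem cp_eq (x : Fin (n + 1) → Qbar) (i : Fin (n + 1)) (e : ℕ) (he : finrank ℚ (fieldOf x) = e) :
    cp x i = X ^ e + ∑ m : Fin e, C ((cp x i).coeff m) * X ^ (m : ℕ) := by
  have hmonic : (cp x i).Monic := monic_prod_of_monic _ _ fun σ _ => monic_X_sub_C _
  have hdeg : (cp x i).natDegree = e := by
    unfold cp
    rw [natDegree_prod_of_monic _ _ fun σ _ => monic_X_sub_C _]
    simp only [natDegree_X_sub_C]
    rw [Finset.sum_const, Finset.card_univ, smul_eq_mul, mul_one, AlgHom.card ℚ (fieldOf x) Qbar, he]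
  have h1 := hmonic.as_sum
  rw [hdeg] at h1
  rw [Finset.sum_range] at h1
  exact h1

theorem cp_root (x : Fin (n + 1) → Qbar) (i : Fin (n + 1)) : (cp x i).eval (x i) = 0 := by
  unfold cp
  rw [eval_prod]
  refine Finset.prod_eq_zero (Finset.mem_univ (fieldOf x).val) ?_
  have : cj x (fieldOf x).val i = x i := rfl
  rw [this]
  simp

open Classical in
/-- **Northcott's theorem with a bound**: the projections of the points of degree `e` -/
theorem north (n e k : ℕ) (v : Fin k → Fin (n + 1)) : ∃ K : ℝ, 0 < K ∧ ∀ (T : ℝ), 1 ≤ T →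
    ∀ (j : Fin (n + 1)) (S : Finset (Fin (n + 1) → Qbar)),
    (∀ x ∈ S, x j = 1 ∧ finrank ℚ (fieldOf x) = e ∧ e * absLogHeight x ≤ Real.log T) →
    ((S.image (fun x (i : Fin k) => x (v i))).card : ℝ) ≤ K * T ^ (k * e + 1) := by
  obtain ⟨K₀, hK₀⟩ := height_wv n e k v
  set E : ℝ := Real.exp |K₀| with hE
  have hE1 : 1 ≤ E := Real.one_le_exp (abs_nonneg _)
  refine ⟨e ^ k * (3 * E) ^ (k * e + 1) + 1, by positivity, fun T hT j S hS => ?_⟩
  set R : ℕ := ⌊E * T⌋₊ with hR
  have hET : 1 ≤ E * T := by nlinarith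
  -- all the candidates
  set Box : Finset (Option (Fin k × Fin e) → ℤ) :=
    Fintype.piFinset (fun _ => Finset.Icc (-(R : ℤ)) R) with hBox
  set Big : Finset (Fin k → Qbar) := Box.biUnion (fun z =>
    Fintype.piFinset (fun i : Fin k => (pz z i).roots.toFinset)) with hBig
  have hBoxcard : Box.card = (2 * R + 1) ^ (k * e + 1) := by
    rw [hBox, Fintype.card_piFinset, Finset.prod_const, Finset.card_univ, Fintype.card_option,
      Fintype.card_prod, Fintype.card_fin, Fintype.card_fin, Int.card_Icc]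
    congr 1
    omega
  have hBigcard : Big.card ≤ (2 * R + 1) ^ (k * e + 1) * e ^ k := by
    rw [hBig]
    refine Finset.card_biUnion_le.trans ?_
    rw [← hBoxcard]
    refine (Finset.sum_le_card_nsmul _ _ (e ^ k) fun z _ => ?_).trans (le_of_eq (smul_eq_mul ..))
    rw [Fintype.card_piFinset]
    refine (Finset.prod_le_prod' fun i _ => pz_deg z i).trans (le_of_eq ?_)
    rw [Finset.prod_const, Finset.card_univ, Fintype.card_fin]
  have hsub : S.image (fun x (i : Fin k) => x (v i)) ⊆ Big := by
    intro w hw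
    rw [Finset.mem_image] at hw
    obtain ⟨x, hx, rfl⟩ := hw
    obtain ⟨hxj, hdeg, hht⟩ := hS x hx
    -- the rational vector
    have hrat : ∀ q, ∃ r : ℚ, (r : Qbar) = wv x v e q := by
      intro q
      match q with
      | none => exact ⟨1, by simp [wv]⟩
      | some p => exact cp_rational x _ _
    choose r hr using hrat
    have hr0 : r ≠ 0 := by
      intro h
      have := hr none
      rw [h] at this
      simp [wv] at this
    obtain ⟨c, z, hc, hgcd, hz⟩ := exists_int r hr0
    have hcq : ((c : ℚ) : Qbar) ≠ 0 := by exact_mod_cast hc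
    have hzq : ∀ q, ((z q : ℤ) : Qbar) = (c : Qbar) * wv x v e q := by
      intro q
      rw [← hr q, ← Rat.cast_mul, ← hz q]
      simp
    have h1 := absLogHeight_int z hgcd
    have h2 : (fun q => ((z q : ℤ) : Qbar)) = (c : Qbar) • wv x v e := by
      funext q
      exact hzq q
    rw [h2, absLogHeight_smul _ hcq] at h1
    have h3 := hK₀ x j hxj hdeg
    have h4 : ∀ q, z q ∈ Finset.Icc (-(R : ℤ)) R := by
      intro q
      rw [Finset.mem_Icc, ← abs_le]
      have h5 : |z q| ≤ ⨆ i, |z i| := Finite.le_ciSup (fun i => |z i|) q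
      have h6 : ((⨆ i, |z i| : ℤ) : ℝ) ≤ E * T := by
        by_cases h0 : (⨆ i, |z i| : ℤ) ≤ 0
        · have : ((⨆ i, |z i| : ℤ) : ℝ) ≤ 0 := by exact_mod_cast h0
          linarith
        · push Not at h0
          have h7 : (0 : ℝ) < ((⨆ i, |z i| : ℤ) : ℝ) := by exact_mod_cast h0
          rw [← Real.log_le_log_iff h7 (by linarith), ← h1, Real.log_mul (by positivity) (by positivity),
            hE, Real.log_exp]
          have := le_abs_self K₀
          linarith
      have h7 : ((|z q| : ℤ) : ℝ) ≤ E * T := le_trans (by exact_mod_cast h5) h6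
      have h8 : (z q).natAbs ≤ R := Nat.le_floor (by rw [Nat.cast_natAbs]; exact h7)
      rw [Int.abs_eq_natAbs]
      exact_mod_cast h8
    have hz0 : ((z none : ℤ) : Qbar) = c := by
      rw [hzq none]
      simp [wv]
    have hpz : ∀ i : Fin k, pz z i = cp x (v i) := by
      intro i
      rw [cp_eq x (v i) e hdeg]
      unfold pz
      congr 1
      refine Finset.sum_congr rfl fun m _ => ?_
      rw [hz0, hzq (some (i, m)), mul_div_cancel_left₀ _ hcq]
      rfl
    rw [hBig, Finset.mem_biUnion]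
    refine ⟨z, Fintype.mem_piFinset.2 h4, ?_⟩
    rw [Fintype.mem_piFinset]
    intro i
    rw [Multiset.mem_toFinset, mem_roots (pz_ne z i), IsRoot.def, hpz i]
    exact cp_root x _
  have h1 := (Finset.card_le_card hsub).trans hBigcard
  have h2 : ((S.image (fun x (i : Fin k) => x (v i))).card : ℝ) ≤
      (2 * R + 1) ^ (k * e + 1) * e ^ k := by exact_mod_cast h1
  have h3 : (2 * (R : ℝ) + 1) ≤ 3 * E * T := by
    have := Nat.floor_le (show 0 ≤ E * T by linarith)
    rw [← hR] at this
    nlinarith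
  have h4 : (2 * (R : ℝ) + 1) ^ (k * e + 1) ≤ (3 * E * T) ^ (k * e + 1) :=
    pow_le_pow_left₀ (by positivity) h3 _
  have h5 : (0 : ℝ) ≤ T ^ (k * e + 1) := by positivity
  calc ((S.image (fun x (i : Fin k) => x (v i))).card : ℝ) ≤ (2 * R + 1) ^ (k * e + 1) * e ^ k := h2
    _ ≤ (3 * E * T) ^ (k * e + 1) * e ^ k := mul_le_mul_of_nonneg_right h4 (by positivity)
    _ = e ^ k * (3 * E) ^ (k * e + 1) * T ^ (k * e + 1) := by
        rw [mul_pow (3 * E) T]
        ring
    _ ≤ _ := by
        rw [add_mul, one_mul]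
        linarith

end Pool.Agent.Helper17.AP
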