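import Pool.Agent.Helper17.AP.Final

set_option autoImplicit false

/-! # Random complete intersections: points over all number fields of bounded degree -/

namespace Pool.Agent.Helper17.AP

open Finset Pool.Agent.Helper259.AbsHt Module Pool.Agent.R870.RC MvPolynomial

variable {n : ℕ}

theorem homogZ_aeval {σ : Type} [Fintype σ] {A : Type} [CommRing A] (P : MvPolynomial σ ℤ) (e : ℕ)
    (hP : P.IsHomogeneous e) (x : σ → A) (c : A) :
    aeval (fun i => c * x i) P = c ^ e * aeval x P := by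
  rw [MvPolynomial.aeval_def, MvPolynomial.aeval_def, MvPolynomial.eval₂_eq',
    MvPolynomial.eval₂_eq', Finset.mul_sum]
  refine Finset.sum_congr rfl fun m hm => ?_
  have h3 : ∑ j, m j = e := by
    have h4 := hP (MvPolynomial.mem_support_iff.1 hm)
    rw [← h4, Finsupp.weight_apply, Finsupp.sum_fintype _ _ (by simp)]
    simp
  simp only [mul_pow, Finset.prod_mul_distrib, Finset.prod_pow_eq_pow_sum, h3]
  ring

/-- a point over a number field of degree at most `e` is a point of degree at most `e` -/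
theorem field_sub {s : ℕ} (E : Set (MvPolynomial (Fin (n + 1)) ℚ))
    (hE : ∀ P ∈ E, ∃ e, P.IsHomogeneous e) (e : ℕ) (d : Fin s → ℕ) (H : ℕ) (B : ℝ) :
    FieldPoint E e d H B ⊆ ⋃ e' ∈ Finset.Icc 1 e, AlgPoint E e' d H B := by
  rintro F ⟨hF, K, _, _, x, hK, hx0, hht, hxE, hFx⟩
  obtain ⟨j, hj⟩ : ∃ j, x j ≠ 0 := Function.ne_iff.1 hx0
  have halg : Algebra.IsAlgebraic ℚ K := inferInstance
  let φ : K →ₐ[ℚ] Qbar := IsAlgClosed.lift
  set y : Fin (n + 1) → K := fun i => (x j)⁻¹ * x i with hy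
  set z : Fin (n + 1) → Qbar := fun i => φ (y i) with hz
  have hyj : y j = 1 := by
    rw [hy]
    exact inv_mul_cancel₀ hj
  have hzj : z j = 1 := by
    rw [hz]
    simp only
    rw [hyj, map_one]
  have hle : fieldOf z ≤ φ.fieldRange := by
    rw [IntermediateField.adjoin_le_iff]
    rintro _ ⟨i, rfl⟩
    exact ⟨y i, rfl⟩
  have hfin : finrank ℚ (fieldOf z) ≤ finrank ℚ K := by
    have h1 : finrank ℚ φ.fieldRange = finrank ℚ K :=
      (LinearEquiv.finrank_eq (AlgEquiv.ofInjectiveField φ).toLinearEquiv).symm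
    have h2 : FiniteDimensional ℚ φ.fieldRange :=
      Module.Finite.equiv (AlgEquiv.ofInjectiveField φ).toLinearEquiv
    rw [← h1]
    exact LinearMap.finrank_le_finrank_of_injective
      (f := (IntermediateField.inclusion hle).toLinearMap)
      (IntermediateField.inclusion_injective hle)
  have hpos : 0 < finrank ℚ (fieldOf z) := Module.finrank_pos
  rw [Set.mem_iUnion₂]
  refine ⟨finrank ℚ (fieldOf z), Finset.mem_Icc.2 ⟨hpos, hfin.trans hK⟩, hF, z,
    ⟨⟨j, hzj⟩, rfl, ?_⟩, fun P hP => ?_, fun i => ?_⟩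
  · have h1 := absLogHeight_eq K (φ : K →+* Qbar) y
    have h2 : (fun i => (φ : K →+* Qbar) (y i)) = z := rfl
    rw [h2] at h1
    have h3 : Height.logHeight y = Height.logHeight x := by
      have h4 : y = (x j)⁻¹ • x := rfl
      rw [h4, Height.logHeight_smul_eq_logHeight x (inv_ne_zero hj)]
    have hKpos : (0 : ℝ) < finrank ℚ K := by
      have := Module.finrank_pos (R := ℚ) (M := K)
      exact_mod_cast this
    rw [h1, h3, div_le_iff₀ hKpos, Height.logHeight_eq_log_mulHeight]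
    refine (Real.log_le_log (Height.mulHeight_pos x) hht).trans (le_of_eq ?_)
    rw [Real.log_pow, mul_comm]
  · obtain ⟨k, hk⟩ := hE P hP
    have h1 : aeval z P = φ (aeval y P) := by
      have h4 : φ.comp (aeval y : MvPolynomial (Fin (n + 1)) ℚ →ₐ[ℚ] K) = aeval z := by
        apply MvPolynomial.algHom_ext
        intro k
        simp [hz]
      exact (DFunLike.congr_fun h4 P).symm
    have h2 : aeval y P = 0 := by
      have h3 : aeval y P = ((x j)⁻¹) ^ k * aeval x P := by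
        rw [hy, MvPolynomial.aeval_def, MvPolynomial.aeval_def, MvPolynomial.eval₂_eq',
          MvPolynomial.eval₂_eq', Finset.mul_sum]
        refine Finset.sum_congr rfl fun m hm => ?_
        have h3 : ∑ j, m j = k := by
          have h4 := hk (MvPolynomial.mem_support_iff.1 hm)
          rw [← h4, Finsupp.weight_apply, Finsupp.sum_fintype _ _ (by simp)]
          simp
        simp only [mul_pow, Finset.prod_mul_distrib, Finset.prod_pow_eq_pow_sum, h3]
        ring
      rw [h3, hxE P hP, mul_zero]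
    rw [h1, h2, map_zero]
  · have h1 : aeval z (F i) = φ (aeval y (F i)) := by
      have h4 : ((φ : K →+* Qbar).comp
          ((aeval y : MvPolynomial (Fin (n + 1)) ℤ →ₐ[ℤ] K) : MvPolynomial (Fin (n + 1)) ℤ →+* K)) =
          ((aeval z : MvPolynomial (Fin (n + 1)) ℤ →ₐ[ℤ] Qbar) :
            MvPolynomial (Fin (n + 1)) ℤ →+* Qbar) := by
        apply MvPolynomial.ringHom_ext
        · intro r
          simp
        · intro k
          simp [hz]
      exact (DFunLike.congr_fun h4 (F i)).symm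
    rw [h1, hy, homogZ_aeval (F i) (d i) (hF i).1 x, hFx i, mul_zero, map_zero]

theorem algPoint_finite {s : ℕ} (E : Set (MvPolynomial (Fin (n + 1)) ℚ)) (e : ℕ) (d : Fin s → ℕ)
    (H : ℕ) (B : ℝ) : (AlgPoint E e d H B).Finite := by
  refine Set.Finite.subset (Finset.finite_toSet (SF n d H)) ?_
  rintro F ⟨hF, _⟩
  exact mem_SF.2 hF

/-- **all number fields of degree at most `e`** -/
theorem upper_field (n m s e : ℕ) (E : Set (MvPolynomial (Fin (n + 1)) ℚ))
    (hE : ∀ P ∈ E, ∃ e, P.IsHomogeneous e)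
    (hdim : Algebra.trdeg ℚ (MvPolynomial (Fin (n + 1)) ℚ ⧸ Ideal.span E) = m + 1)
    (d : Fin s → ℕ) (hd : ∀ i, e ≤ d i + 1) (hD : m * e + 2 ≤ ∑ i, (d i + 1 - e)) :
    ∃ K : ℝ, 0 < K ∧ ∀ (H : ℕ) (B : ℝ), 1 ≤ H → 1 ≤ B →
      ((FieldPoint E e d H B).ncard : ℝ) ≤ K / (H : ℝ) ^ s *
        (1 + B ^ (e * (m * e + 1)) / (H : ℝ) ^ (∑ i, (d i + 1 - e))) *
          ((Systems n d H).ncard : ℝ) := by
  classical
  have hex : ∀ e' : ℕ, ∃ K : ℝ, 0 < K ∧ (e' ∈ Finset.Icc 1 e → ∀ (H : ℕ) (B : ℝ), 1 ≤ H → 1 ≤ B →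
      ((AlgPoint E e' d H B).ncard : ℝ) ≤ K / (H : ℝ) ^ (e' * s) *
        (1 + B ^ (e' * (m * e' + 1)) / (H : ℝ) ^ (∑ i, (d i + 1 - e'))) *
          ((Systems n d H).ncard : ℝ)) := by
    intro e'
    by_cases h : e' ∈ Finset.Icc 1 e
    · rw [Finset.mem_Icc] at h
      obtain ⟨K, hK, hK'⟩ := upper n m s e' h.1 E hE hdim d (fun i => h.2.trans (hd i)) (by
        have h1 : m * e' + 2 ≤ m * e + 2 := by
          have := Nat.mul_le_mul_left m h.2
          omega
        refine h1.trans (hD.trans (Finset.sum_le_sum fun i _ => ?_))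
        omega)
      exact ⟨K, hK, fun _ => hK'⟩
    · exact ⟨1, one_pos, fun h' => absurd h' h⟩
  choose K hK0 hK using hex
  refine ⟨∑ e' ∈ Finset.Icc 1 e, K e' + 1, by
    have : 0 ≤ ∑ e' ∈ Finset.Icc 1 e, K e' := Finset.sum_nonneg fun e' _ => (hK0 e').le
    linarith, fun H B hH hB => ?_⟩
  have hH1 : (1 : ℝ) ≤ H := by exact_mod_cast hH
  have hH0 : (0 : ℝ) < H := by linarith
  set Y : ℝ := 1 + B ^ (e * (m * e + 1)) / (H : ℝ) ^ (∑ i, (d i + 1 - e)) with hY
  have hY0 : 0 < Y := by positivity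
  set N : ℝ := ((Systems n d H).ncard : ℝ) with hN
  have hN0 : 0 ≤ N := Nat.cast_nonneg _
  have h1 : ((FieldPoint E e d H B).ncard : ℝ) ≤
      ∑ e' ∈ Finset.Icc 1 e, ((AlgPoint E e' d H B).ncard : ℝ) := by
    have h2 : (FieldPoint E e d H B).ncard ≤ ∑ e' ∈ Finset.Icc 1 e, (AlgPoint E e' d H B).ncard := by
      have hfin : (⋃ e' ∈ Finset.Icc 1 e, AlgPoint E e' d H B).Finite :=
        Set.Finite.biUnion (Finset.finite_toSet _) fun e' _ => algPoint_finite E e' d H B
      refine (Set.ncard_le_ncard (field_sub E hE e d H B) hfin).trans ?_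
      exact Finset.set_ncard_biUnion_le _ _
    calc ((FieldPoint E e d H B).ncard : ℝ) ≤
          ((∑ e' ∈ Finset.Icc 1 e, (AlgPoint E e' d H B).ncard : ℕ) : ℝ) := Nat.cast_le.2 h2
      _ = _ := Nat.cast_sum _ _
  have h3 : ∀ e' ∈ Finset.Icc 1 e, ((AlgPoint E e' d H B).ncard : ℝ) ≤
      K e' * (1 / (H : ℝ) ^ s * Y * N) := by
    intro e' he'
    have h4 := hK e' he' H B hH hB
    rw [Finset.mem_Icc] at he'
    refine h4.trans ?_
    have h5 : K e' / (H : ℝ) ^ (e' * s) ≤ K e' * (1 / (H : ℝ) ^ s) := by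
      rw [mul_one_div]
      refine div_le_div_of_nonneg_left (hK0 e').le (by positivity) (pow_le_pow_right₀ hH1 ?_)
      exact Nat.le_mul_of_pos_left s he'.1
    have h6 : 1 + B ^ (e' * (m * e' + 1)) / (H : ℝ) ^ (∑ i, (d i + 1 - e')) ≤ Y := by
      rw [hY]
      refine add_le_add le_rfl (div_le_div₀ (by positivity) ?_ (by positivity) ?_)
      · refine pow_le_pow_right₀ hB (Nat.mul_le_mul he'.2 ?_)
        have := Nat.mul_le_mul_left m he'.2
        omega
      · refine pow_le_pow_right₀ hH1 (Finset.sum_le_sum fun i _ => ?_)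
        omega
    calc K e' / (H : ℝ) ^ (e' * s) *
          (1 + B ^ (e' * (m * e' + 1)) / (H : ℝ) ^ (∑ i, (d i + 1 - e'))) * N
        ≤ (K e' * (1 / (H : ℝ) ^ s)) * Y * N := by
          refine mul_le_mul_of_nonneg_right (mul_le_mul h5 h6 (by positivity) ?_) hN0
          exact mul_nonneg (hK0 e').le (by positivity)
      _ = _ := by ring
  refine (h1.trans (Finset.sum_le_sum h3)).trans ?_
  rw [← Finset.sum_mul]
  have h7 : 0 ≤ 1 / (H : ℝ) ^ s * Y * N := by positivity
  calc (∑ e' ∈ Finset.Icc 1 e, K e') * (1 / (H : ℝ) ^ s * Y * N)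
      ≤ (∑ e' ∈ Finset.Icc 1 e, K e' + 1) * (1 / (H : ℝ) ^ s * Y * N) :=
        mul_le_mul_of_nonneg_right (by linarith) h7
    _ = _ := by ring

end Pool.Agent.Helper17.AP
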