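import Pool.Agent.Helper17.AP.Span

set_option autoImplicit false

/-! # Primitive elements of large height -/

namespace Pool.Agent.Helper17.AP

open Finset Pool.Agent.Helper259.AbsHt Module

variable {n : ℕ}

/-- the coordinates as elements of the field of definition -/
noncomputable def xf (x : Fin (n + 1) → Qbar) (k : Fin (n + 1)) : fieldOf x :=
  ⟨x k, IntermediateField.subset_adjoin ℚ _ (Set.mem_range_self k)⟩

/-- the conjugate point -/
noncomputable def cj (x : Fin (n + 1) → Qbar) (σ : fieldOf x →ₐ[ℚ] Qbar) :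
    Fin (n + 1) → Qbar := fun k => σ (xf x k)

theorem cj_inj (x : Fin (n + 1) → Qbar) (σ τ : fieldOf x →ₐ[ℚ] Qbar) (h : cj x σ = cj x τ) :
    σ = τ := by
  refine IntermediateField.algHom_ext_of_eq_adjoin (s := Set.range x) _ rfl ?_
  rintro _ ⟨k, rfl⟩
  exact congrFun h k

/-- `lt t x` as an element of the field of definition -/
noncomputable def ltf (t : ℕ) (x : Fin (n + 1) → Qbar) : fieldOf x :=
  ∑ k : Fin (n + 1), (t : fieldOf x) ^ (k : ℕ) * xf x k

theorem ltf_val (t : ℕ) (x : Fin (n + 1) → Qbar) : ((ltf t x : fieldOf x) : Qbar) = lt t x := by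
  unfold ltf lt xf
  push_cast
  rfl

theorem map_ltf (t : ℕ) (x : Fin (n + 1) → Qbar) (σ : fieldOf x →ₐ[ℚ] Qbar) :
    σ (ltf t x) = lt t (cj x σ) := by
  unfold ltf lt cj
  rw [map_sum]
  refine Finset.sum_congr rfl fun k _ => ?_
  rw [map_mul, map_pow, map_natCast]

open Classical in
/-- two different points have few `t` in common -/
theorem few_t (y z : Fin (n + 1) → Qbar) (hyz : y ≠ z) (R : Finset ℕ) :
    (R.filter (fun t => lt t y = lt t z)).card ≤ n := by
  set P : Polynomial Qbar := ∑ k : Fin (n + 1), Polynomial.C (y k - z k) * Polynomial.X ^ (k : ℕ)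
    with hP
  have hdeg : P.natDegree ≤ n := by
    rw [hP]
    refine Polynomial.natDegree_sum_le_of_forall_le _ _ fun k _ => ?_
    refine (Polynomial.natDegree_C_mul_X_pow_le _ _).trans (by omega)
  have hP0 : P ≠ 0 := by
    intro h
    apply hyz
    funext i
    have h2 : P.coeff i = y i - z i := by
      rw [hP, Polynomial.finsetSum_coeff, Finset.sum_eq_single i]
      · rw [Polynomial.coeff_C_mul_X_pow, if_pos rfl]
      · intro b _ hb
        rw [Polynomial.coeff_C_mul_X_pow, if_neg (fun h => hb (Fin.ext h.symm))]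
      · intro h
        exact absurd (Finset.mem_univ _) h
    rw [h, Polynomial.coeff_zero] at h2
    exact (sub_eq_zero.1 h2.symm)
  have h1 : (R.filter (fun t => lt t y = lt t z)).image (fun t : ℕ => (t : Qbar)) ⊆
      P.roots.toFinset := by
    intro a ha
    rw [Finset.mem_image] at ha
    obtain ⟨t, ht, rfl⟩ := ha
    rw [Finset.mem_filter] at ht
    rw [Multiset.mem_toFinset, Polynomial.mem_roots hP0, Polynomial.IsRoot.def, hP,
      Polynomial.eval_finsetSum]
    have h3 : ∑ k : Fin (n + 1), (Polynomial.C (y k - z k) * Polynomial.X ^ (k : ℕ)).eval (t : Qbar) =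
        lt t y - lt t z := by
      unfold lt
      rw [← Finset.sum_sub_distrib]
      refine Finset.sum_congr rfl fun k _ => ?_
      simp
      ring
    rw [h3, ht.2, sub_self]
  have h2 := (Finset.card_le_card h1).trans ((Multiset.toFinset_card_le _).trans
    ((Polynomial.card_roots' P).trans hdeg))
  rwa [Finset.card_image_of_injective _ Nat.cast_injective] at h2

/-- good parameters -/
theorem many_good (x : Fin (n + 1) → Qbar) (R : Finset ℕ) :
    ∃ G ⊆ R, R.card ≤ G.card + n * finrank ℚ (fieldOf x) ^ 2 ∧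
      ∀ t ∈ G, ∀ σ τ : fieldOf x →ₐ[ℚ] Qbar, lt t (cj x σ) = lt t (cj x τ) → σ = τ := by
  classical
  let E := fieldOf x →ₐ[ℚ] Qbar
  have hcard : Fintype.card E = finrank ℚ (fieldOf x) := AlgHom.card ℚ (fieldOf x) Qbar
  set Bd : Finset ℕ := (Finset.univ.filter (fun p : E × E => p.1 ≠ p.2)).biUnion
    (fun p => R.filter (fun t => lt t (cj x p.1) = lt t (cj x p.2))) with hBd
  refine ⟨R \ Bd, Finset.sdiff_subset, ?_, ?_⟩
  · have h1 : Bd.card ≤ n * finrank ℚ (fieldOf x) ^ 2 := by
      refine Finset.card_biUnion_le.trans ?_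
      have h2 : ∀ p ∈ Finset.univ.filter (fun p : E × E => p.1 ≠ p.2),
          (R.filter (fun t => lt t (cj x p.1) = lt t (cj x p.2))).card ≤ n := by
        intro p hp
        rw [Finset.mem_filter] at hp
        exact few_t _ _ (fun h => hp.2 (cj_inj x _ _ h)) R
      refine (Finset.sum_le_card_nsmul _ _ _ h2).trans ?_
      rw [smul_eq_mul, mul_comm]
      refine Nat.mul_le_mul_left _ ((Finset.card_filter_le _ _).trans ?_)
      rw [Finset.card_univ, Fintype.card_prod, hcard, sq]
    have h3 := Finset.le_card_sdiff Bd R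
    omega
  · intro t ht σ τ h
    rw [Finset.mem_sdiff] at ht
    by_contra hne
    apply ht.2
    rw [hBd, Finset.mem_biUnion]
    exact ⟨(σ, τ), Finset.mem_filter.2 ⟨Finset.mem_univ _, hne⟩, Finset.mem_filter.2 ⟨ht.1, h⟩⟩

theorem natDegree_lt (x : Fin (n + 1) → Qbar) (t : ℕ)
    (ht : ∀ σ τ : fieldOf x →ₐ[ℚ] Qbar, lt t (cj x σ) = lt t (cj x τ) → σ = τ) :
    (minpoly ℚ (lt t x)).natDegree = finrank ℚ (fieldOf x) := by
  classical
  let E := fieldOf x →ₐ[ℚ] Qbar
  have hcard : Fintype.card E = finrank ℚ (fieldOf x) := AlgHom.card ℚ (fieldOf x) Qbar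
  have h0 : minpoly ℚ (lt t x) = minpoly ℚ (ltf t x) := by
    rw [← ltf_val]
    exact minpoly.algebraMap_eq (algebraMap (fieldOf x) Qbar).injective (ltf t x)
  rw [h0]
  refine le_antisymm (minpoly.natDegree_le _) ?_
  have hint : IsIntegral ℚ (ltf t x) := Algebra.IsIntegral.isIntegral _
  have hne := minpoly.ne_zero hint
  have h1 : (Finset.univ.image (fun σ : E => σ (ltf t x))) ⊆
      ((minpoly ℚ (ltf t x)).map (algebraMap ℚ Qbar)).roots.toFinset := by
    intro a ha
    rw [Finset.mem_image] at ha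
    obtain ⟨σ, _, rfl⟩ := ha
    rw [Multiset.mem_toFinset, Polynomial.mem_roots (Polynomial.map_ne_zero hne),
      Polynomial.IsRoot.def, Polynomial.eval_map_algebraMap, Polynomial.aeval_algHom_apply,
      minpoly.aeval, map_zero]
  have h2 := (Finset.card_le_card h1).trans ((Multiset.toFinset_card_le _).trans
    (Polynomial.card_roots' _))
  rw [Polynomial.natDegree_map, Finset.card_image_of_injective, Finset.card_univ, hcard] at h2
  · exact h2
  · intro σ τ h
    simp only at h
    rw [map_ltf, map_ltf] at h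
    exact ht σ τ h

/-- **primitive elements of large height** -/
theorem exists_prim (n e m : ℕ) (hm : 1 ≤ m) : ∃ (C : ℝ) (M : ℕ), ∀ x : Fin (n + 1) → Qbar,
    finrank ℚ (fieldOf x) = e → ∃ t ≤ M, (minpoly ℚ (lt t x)).natDegree = e ∧
      m * absLogHeight x ≤ C + (m + n) * absLogHeight ![1, lt t x] := by
  classical
  choose C hC using fun S : {S : Finset ℕ // m + n ≤ S.card} => span_height (n := n) m S.1 S.2
  set M := m + n + n * e ^ 2 with hM
  set D : Finset ℕ → ℝ := fun S => if h : m + n ≤ S.card then |C ⟨S, h⟩| else 0 with hD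
  have hD0 : ∀ S, 0 ≤ D S := by
    intro S
    rw [hD]
    by_cases h : m + n ≤ S.card
    · simp only [h, dif_pos]; exact abs_nonneg _
    · simp only [h, dif_neg, not_false_eq_true]; exact le_rfl
  refine ⟨∑ S ∈ (Finset.range (M + 1)).powerset, D S, M, fun x hx => ?_⟩
  obtain ⟨G, hGR, hcard, hG⟩ := many_good x (Finset.range (M + 1))
  rw [Finset.card_range, hx] at hcard
  obtain ⟨S, hSG, hS⟩ := Finset.exists_subset_card_eq (show m + n ≤ G.card by omega)
  have hSne : S.Nonempty := by
    rw [← Finset.card_pos]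
    omega
  obtain ⟨t, htS, hmax⟩ := S.exists_max_image (fun t => absLogHeight ![1, lt t x]) hSne
  refine ⟨t, ?_, ?_, ?_⟩
  · have := hGR (hSG htS)
    rw [Finset.mem_range] at this
    omega
  · rw [← hx]
    exact natDegree_lt x t (hG t (hSG htS))
  · have h1 := hC ⟨S, hS.ge⟩ x
    have h2 : ∑ t' ∈ S, absLogHeight ![1, lt t' x] ≤ (m + n) * absLogHeight ![1, lt t x] := by
      refine (Finset.sum_le_card_nsmul _ _ _ hmax).trans ?_
      rw [nsmul_eq_mul, hS]
      push_cast
      exact le_rfl
    have h3 : C ⟨S, hS.ge⟩ ≤ ∑ S ∈ (Finset.range (M + 1)).powerset, D S := by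
      have h4 : D S ≤ ∑ S ∈ (Finset.range (M + 1)).powerset, D S :=
        Finset.single_le_sum (fun S _ => hD0 S) (Finset.mem_powerset.2 (hSG.trans hGR))
      have h5 : C ⟨S, hS.ge⟩ ≤ D S := by
        rw [hD]
        simp only [hS.ge, dif_pos]
        exact le_abs_self _
      exact h5.trans h4
    linarith

end Pool.Agent.Helper17.AP
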