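import Mathlib
import Pool.Graph.R_seed8.Helper259.AbsHt

set_option autoImplicit false

/-! # Heights of linear combinations of the coordinates -/

namespace Pool.Agent.Helper17.AP

open Finset Pool.Agent.Helper259.AbsHt

variable {n : ℕ}

/-- the linear combination `∑ t ^ k x_k` -/
noncomputable def lt (t : ℕ) (x : Fin (n + 1) → Qbar) : Qbar :=
  ∑ k : Fin (n + 1), (t : Qbar) ^ (k : ℕ) * x k

/-- each coordinate is a linear combination of `n + 1` of the `lt t` -/
theorem coord_comb (S : Finset ℕ) (hS : S.card = n + 1) (i : Fin (n + 1)) :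
    ∃ v : ℕ → Qbar, ∀ x : Fin (n + 1) → Qbar, x i = ∑ t ∈ S, v t * lt t x := by
  classical
  refine ⟨fun t => (Lagrange.basis S (fun t : ℕ => (t : Qbar)) t).coeff i, fun x => ?_⟩
  set P : Polynomial Qbar := ∑ k : Fin (n + 1), Polynomial.C (x k) * Polynomial.X ^ (k : ℕ) with hP
  have hinj : Set.InjOn (fun t : ℕ => (t : Qbar)) S := fun a _ b _ h => Nat.cast_injective h
  have hdeg : P.degree < S.card := by
    rw [hS, hP]
    refine (Polynomial.degree_sum_le _ _).trans_lt ?_
    rw [Finset.sup_lt_iff (by exact WithBot.bot_lt_coe _)]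
    intro k _
    refine (Polynomial.degree_C_mul_X_pow_le _ _).trans_lt ?_
    exact_mod_cast k.2
  have h1 := Lagrange.eq_interpolate hinj hdeg
  have h2 : P.coeff i = x i := by
    rw [hP, Polynomial.finsetSum_coeff, Finset.sum_eq_single i]
    · simp
    · intro b _ hb
      rw [Polynomial.coeff_C_mul_X_pow, if_neg (fun h => hb (Fin.ext h.symm))]
    · intro h
      exact absurd (Finset.mem_univ _) h
  have h3 : ∀ t : ℕ, P.eval (t : Qbar) = lt t x := by
    intro t
    rw [hP, Polynomial.eval_finsetSum]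
    unfold lt
    refine Finset.sum_congr rfl fun k _ => ?_
    simp
    ring
  rw [← h2, h1, Lagrange.interpolate_apply, Polynomial.finsetSum_coeff]
  refine Finset.sum_congr rfl fun t _ => ?_
  rw [Polynomial.coeff_C_mul, h3, mul_comm]

/-- the span of the products of the `lt t`, `t ∈ S` -/
noncomputable def W (n : ℕ) (S : Finset ℕ) : Submodule Qbar ((Fin (n + 1) → Qbar) → Qbar) :=
  Submodule.span Qbar ((fun T : Finset ℕ => fun x : Fin (n + 1) → Qbar => ∏ t ∈ T, lt t x) ''
    (S.powerset : Set (Finset ℕ)))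

theorem mul_mem_W (S : Finset ℕ) (t : ℕ) (ht : t ∈ S) (p : (Fin (n + 1) → Qbar) → Qbar)
    (hp : p ∈ W n (S.erase t)) : (fun x => lt t x * p x) ∈ W n S := by
  classical
  unfold W at hp
  induction hp using Submodule.span_induction with
  | mem q hq =>
    obtain ⟨T, hT, rfl⟩ := hq
    rw [Finset.mem_coe, Finset.mem_powerset] at hT
    have htT : t ∉ T := fun h => (Finset.mem_erase.1 (hT h)).1 rfl
    refine Submodule.subset_span ⟨insert t T, ?_, ?_⟩
    · rw [Finset.mem_coe, Finset.mem_powerset]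
      intro u hu
      rcases Finset.mem_insert.1 hu with rfl | hu
      · exact ht
      · exact (Finset.mem_erase.1 (hT hu)).2
    · funext x
      exact Finset.prod_insert htT
  | zero =>
    have : (fun x : Fin (n + 1) → Qbar => lt t x * (0 : (Fin (n + 1) → Qbar) → Qbar) x) = 0 := by
      funext x; simp
    rw [this]
    exact Submodule.zero_mem _
  | add q r _ _ hq hr =>
    have : (fun x : Fin (n + 1) → Qbar => lt t x * (q + r) x) =
        (fun x => lt t x * q x) + (fun x => lt t x * r x) := by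
      funext x; simp [mul_add]
    rw [this]
    exact Submodule.add_mem _ hq hr
  | smul c q _ hq =>
    have : (fun x : Fin (n + 1) → Qbar => lt t x * (c • q) x) = c • (fun x => lt t x * q x) := by
      funext x; simp; ring
    rw [this]
    exact Submodule.smul_mem _ _ hq

theorem prod_mem_W (m : ℕ) : ∀ (S : Finset ℕ), m + n ≤ S.card → ∀ I : Fin m → Fin (n + 1),
    (fun x : Fin (n + 1) → Qbar => ∏ a, x (I a)) ∈ W n S := by
  classical
  induction m with
  | zero =>
    intro S _ I
    refine Submodule.subset_span ⟨∅, ?_, ?_⟩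
    · simp
    · funext x; simp
  | succ m ih =>
    intro S hS I
    obtain ⟨S', hS'S, hS'⟩ := Finset.exists_subset_card_eq (show n + 1 ≤ S.card by omega)
    obtain ⟨v, hv⟩ := coord_comb S' hS' (I (Fin.last m))
    have h1 : (fun x : Fin (n + 1) → Qbar => ∏ a, x (I a)) =
        ∑ t ∈ S', v t • (fun x => lt t x * ∏ a : Fin m, x (I (Fin.castSucc a))) := by
      funext x
      rw [Fin.prod_univ_castSucc, Finset.sum_apply]
      simp only [Pi.smul_apply, smul_eq_mul]
      rw [hv x, Finset.mul_sum]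
      refine Finset.sum_congr rfl fun t _ => ?_
      ring
    rw [h1]
    refine Submodule.sum_mem _ fun t ht => Submodule.smul_mem _ _ ?_
    refine mul_mem_W S t (hS'S ht) _ (ih (S.erase t) ?_ _)
    rw [Finset.card_erase_of_mem (hS'S ht)]
    omega

theorem prod_comb (m : ℕ) (S : Finset ℕ) (hS : m + n ≤ S.card) (I : Fin m → Fin (n + 1)) :
    ∃ c : Finset ℕ → Qbar, ∀ x : Fin (n + 1) → Qbar,
      ∏ a, x (I a) = ∑ T ∈ S.powerset, c T * ∏ t ∈ T, lt t x := by
  have h1 := prod_mem_W m S hS I
  unfold W at h1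
  rw [Submodule.mem_span_image_finset_iff_exists_fun'] at h1
  obtain ⟨c, hc⟩ := h1
  refine ⟨c, fun x => ?_⟩
  have h2 := congrFun hc x
  rw [Finset.sum_apply] at h2
  rw [← h2]
  rfl

/-- the height of a product vector -/
theorem height_prod {ι : Type*} [Fintype ι] [DecidableEq ι] (y : ι → Qbar) :
    absLogHeight (fun I : ι → Fin 2 => ∏ a, (![1, y a] : Fin 2 → Qbar) (I a)) =
      ∑ a, absLogHeight ![1, y a] := by
  obtain ⟨L, hL, hmem⟩ := exists_nf (Set.range y) (Set.finite_range y)
  obtain ⟨z, rfl⟩ := lift_vec L y fun i => hmem _ ⟨i, rfl⟩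
  have e : ∀ a, absLogHeight ![1, (z a : Qbar)] =
      Height.logHeight ![1, z a] / Module.finrank ℚ L := by
    intro i
    rw [← val_eq]
    congr 1
    funext j
    fin_cases j <;> simp
  simp only [e]
  rw [← Finset.sum_div]
  have h1 := Height.logHeight_fun_prod_eq (x := fun i : ι => ![1, z i]) (fun i => by
    intro h
    have := congrFun h 0
    simp at this)
  rw [← h1, ← val_eq]
  congr 1
  funext I
  push_cast
  refine Finset.prod_congr rfl fun a _ => ?_
  generalize I a = k
  fin_cases k <;> simp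

/-- **height inequality** -/
theorem span_height (m : ℕ) (S : Finset ℕ) (hS : m + n ≤ S.card) :
    ∃ C : ℝ, ∀ x : Fin (n + 1) → Qbar,
      m * absLogHeight x ≤ C + ∑ t ∈ S, absLogHeight ![1, lt t x] := by
  classical
  choose c hc using fun I => prod_comb (n := n) m S hS I
  refine ⟨Real.log (Nat.card {T // T ∈ S.powerset}) +
    absLogHeight (fun a : (Fin m → Fin (n + 1)) × {T // T ∈ S.powerset} => c a.1 a.2.1),
    fun x => ?_⟩
  have h1 := absLogHeight_linear
    (fun a : (Fin m → Fin (n + 1)) × {T // T ∈ S.powerset} => c a.1 a.2.1)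
    (fun T : {T // T ∈ S.powerset} => ∏ t ∈ T.1, lt t x)
  have e1 : (fun I : Fin m → Fin (n + 1) => ∑ T : {T // T ∈ S.powerset}, c I T.1 *
      ∏ t ∈ T.1, lt t x) = fun I => ∏ a, x (I a) := by
    funext I
    rw [hc I x]
    exact Finset.sum_coe_sort S.powerset (fun T => c I T * ∏ t ∈ T, lt t x)
  simp only at h1
  rw [e1, absLogHeight_veronese] at h1
  have h2 : absLogHeight (fun T : {T // T ∈ S.powerset} => ∏ t ∈ T.1, lt t x) ≤
      ∑ t ∈ S, absLogHeight ![1, lt t x] := by
    have h3 := height_prod (fun t : ↥S => lt (t : ℕ) x)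
    have h4 : ∑ t ∈ S, absLogHeight ![1, lt t x] = ∑ t : ↥S, absLogHeight ![1, lt (t : ℕ) x] :=
      (Finset.sum_coe_sort S _).symm
    rw [h4, ← h3]
    have h5 := absLogHeight_comp_le
      (fun (T : {T // T ∈ S.powerset}) (t : ↥S) => if (t : ℕ) ∈ T.1 then (1 : Fin 2) else 0)
      (fun I : ↥S → Fin 2 => ∏ a : ↥S, (![1, lt (a : ℕ) x] : Fin 2 → Qbar) (I a))
    refine le_trans (le_of_eq ?_) h5
    congr 1
    funext T
    simp only [Function.comp_apply]
    have h6 : ∀ t : ↥S, (![1, lt (t : ℕ) x] : Fin 2 → Qbar)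
        (if (t : ℕ) ∈ T.1 then (1 : Fin 2) else 0) = if (t : ℕ) ∈ T.1 then lt (t : ℕ) x else 1 := by
      intro t
      split_ifs <;> simp
    rw [Finset.prod_congr rfl fun t _ => h6 t,
      Finset.prod_coe_sort S (fun t => if t ∈ T.1 then lt t x else 1), Finset.prod_ite,
      Finset.prod_const_one, mul_one]
    have h7 : S.filter (fun t => t ∈ T.1) = T.1 := by
      ext t
      rw [Finset.mem_filter]
      exact ⟨fun h => h.2, fun h => ⟨Finset.mem_powerset.1 T.2 h, h⟩⟩
    rw [h7]
  linarith

end Pool.Agent.Helper17.AP
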