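import Pool.Agent.Helper17.AP.Mult
import Pool.Graph.R_seed8.R870.RC.Low

set_option autoImplicit false

/-! # The proportion of the forms vanishing at an algebraic point -/

namespace Pool.Agent.Helper17.AP

open Finset Pool.Agent.Helper259.AbsHt Module Pool.Agent.R870.RC MvPolynomial

variable {n : ℕ}

/-- test forms -/
noncomputable def qq (n t d : ℕ) (j : Fin (n + 1)) (k : ℕ) : MvPolynomial (Fin (n + 1)) ℤ :=
  X j ^ (d - k) * (∑ i : Fin (n + 1), C ((t : ℤ) ^ (i : ℕ)) * X i) ^ k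

theorem qq_hom (t d : ℕ) (j : Fin (n + 1)) (k : ℕ) (hk : k ≤ d) :
    (qq n t d j k).IsHomogeneous d := by
  have h1 : (∑ i : Fin (n + 1), C ((t : ℤ) ^ (i : ℕ)) * X i :
      MvPolynomial (Fin (n + 1)) ℤ).IsHomogeneous 1 := by
    refine IsHomogeneous.sum _ _ _ fun i _ => ?_
    exact isHomogeneous_C_mul_X _ _
  have h2 := ((isHomogeneous_X ℤ j).pow (d - k)).mul (h1.pow k)
  have e : 1 * (d - k) + 1 * k = d := by omega
  rw [e] at h2
  exact h2

theorem aeval_qq (t d : ℕ) (j : Fin (n + 1)) (k : ℕ) (x : Fin (n + 1) → Qbar) (hx : x j = 1) :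
    aeval x (qq n t d j k) = lt t x ^ k := by
  unfold qq lt
  rw [map_mul, map_pow, map_pow, aeval_X, hx, one_pow, one_mul, map_sum]
  congr 1
  refine Finset.sum_congr rfl fun i _ => ?_
  simp

theorem exists_bound {ι : Type*} [Fintype ι] (p : ι → MvPolynomial (Fin (n + 1)) ℤ) :
    ∃ b : ℕ, ∀ i m, |(p i).coeff m| ≤ b := by
  classical
  refine ⟨∑ i, ∑ m ∈ (p i).support, ((p i).coeff m).natAbs, fun i m => ?_⟩
  by_cases h : m ∈ (p i).support
  · have h1 : ((p i).coeff m).natAbs ≤ ∑ m ∈ (p i).support, ((p i).coeff m).natAbs :=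
      Finset.single_le_sum (f := fun m => ((p i).coeff m).natAbs) (fun _ _ => Nat.zero_le _) h
    have h2 : ∑ m ∈ (p i).support, ((p i).coeff m).natAbs ≤
        ∑ i, ∑ m ∈ (p i).support, ((p i).coeff m).natAbs :=
      Finset.single_le_sum (f := fun i => ∑ m ∈ (p i).support, ((p i).coeff m).natAbs)
        (fun _ _ => Nat.zero_le _) (Finset.mem_univ i)
    rw [Int.abs_eq_natAbs]
    exact_mod_cast h1.trans h2
  · rw [MvPolynomial.notMem_support_iff.1 h, abs_zero]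
    exact Nat.cast_nonneg _

/-- the translated form -/
noncomputable def tr (n t d : ℕ) (j : Fin (n + 1)) (u : Fin (d + 1) → ℤ) :
    MvPolynomial (Fin (n + 1)) ℤ := ∑ k : Fin (d + 1), C (u k) * qq n t d j k

theorem tr_sub (t d : ℕ) (j : Fin (n + 1)) (u v : Fin (d + 1) → ℤ) :
    tr n t d j (u - v) = tr n t d j u - tr n t d j v := by
  unfold tr
  rw [← Finset.sum_sub_distrib]
  refine Finset.sum_congr rfl fun k _ => ?_
  rw [Pi.sub_apply, C_sub, sub_mul]

theorem aeval_tr (t d : ℕ) (j : Fin (n + 1)) (u : Fin (d + 1) → ℤ) (x : Fin (n + 1) → Qbar)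
    (hx : x j = 1) : aeval x (tr n t d j u) = Polynomial.aeval (lt t x) (pol u) := by
  unfold tr
  rw [map_sum, aeval_pol]
  refine Finset.sum_congr rfl fun k _ => ?_
  rw [map_mul, aeval_qq _ _ _ _ _ hx]
  simp

open Classical in
/-- counting by translations -/
theorem count_trans (n d e M : ℕ) : ∃ c : ℕ, 1 ≤ c ∧ ∀ (j : Fin (n + 1)) (t : ℕ)
    (x : Fin (n + 1) → Qbar) (f : Polynomial ℤ) (μ : ℕ), t ≤ M → x j = 1 → f.natDegree = e →
    1 ≤ μ → (∃ i, (f.coeff i).natAbs = μ) →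
    (∀ u : Polynomial ℤ, Polynomial.aeval (lt t x) u = 0 → f ∣ u) → ∀ H : ℕ,
    ((FF n d H).filter (fun F => aeval x F = 0)).card * (H + 1) ^ (d + 1) ≤
      (2 * (2 ^ d * (d + 1) * H / μ) + 1) ^ (d + 1 - e) *
        (c ^ (Mo n d).card * (FF n d H).card) := by
  obtain ⟨b, hb⟩ := exists_bound (n := n)
    (fun p : Fin (M + 1) × Fin (n + 1) × Fin (d + 1) => qq n p.1 d p.2.1 p.2.2)
  refine ⟨1 + (d + 1) * b, by omega, fun j t x f μ ht hx hf hμ hi hdvd H => ?_⟩
  set S := (FF n d H).filter (fun F => aeval x F = 0) with hS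
  set U : Finset (Fin (d + 1) → ℤ) := Fintype.piFinset (fun _ => Finset.Icc (0 : ℤ) H) with hU
  have hUcard : U.card = (H + 1) ^ (d + 1) := by
    rw [hU, Fintype.card_piFinset, Finset.prod_const, Finset.card_univ, Fintype.card_fin,
      Int.card_Icc]
    congr 1
  have hmemU : ∀ u ∈ U, ∀ k, 0 ≤ u k ∧ u k ≤ H := by
    intro u hu k
    rw [hU, Fintype.mem_piFinset] at hu
    exact Finset.mem_Icc.1 (hu k)
  have hmaps : ∀ p ∈ S ×ˢ U, p.1 + tr n t d j p.2 ∈ FF n d ((1 + (d + 1) * b) * H) := by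
    intro p hp
    rw [Finset.mem_product] at hp
    obtain ⟨hp1, hp2⟩ := hp
    rw [hS, Finset.mem_filter] at hp1
    have hF := (mem_FF _).1 hp1.1
    rw [mem_FF]
    refine ⟨hF.1.add ?_, fun m => ?_⟩
    · unfold tr
      refine IsHomogeneous.sum _ _ _ fun k _ => ?_
      have h1 := (isHomogeneous_C (Fin (n + 1)) (p.2 k)).mul (qq_hom t d j k (by omega))
      rwa [zero_add] at h1
    · unfold tr
      rw [coeff_add, MvPolynomial.coeff_sum]
      have h1 : |∑ k : Fin (d + 1), coeff m (C (p.2 k) * qq n t d j k)| ≤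
          ∑ k : Fin (d + 1), (b : ℤ) * H := by
        refine (Finset.abs_sum_le_sum_abs _ _).trans (Finset.sum_le_sum fun k _ => ?_)
        rw [coeff_C_mul, abs_mul, mul_comm]
        have h2 := hb (⟨t, by omega⟩, j, k) m
        have h3 := hmemU p.2 hp2 k
        refine mul_le_mul h2 (by rw [abs_of_nonneg h3.1]; exact h3.2) (abs_nonneg _)
          (Nat.cast_nonneg _)
      rw [Finset.sum_const, Finset.card_univ, Fintype.card_fin, nsmul_eq_mul] at h1
      have h4 := abs_add_le (coeff m p.1) (∑ k : Fin (d + 1), coeff m (C (p.2 k) * qq n t d j k))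
      have h5 := hF.2 m
      push_cast at h1 ⊢
      nlinarith
  have hfib : ∀ P ∈ FF n d ((1 + (d + 1) * b) * H),
      ((S ×ˢ U).filter (fun p => p.1 + tr n t d j p.2 = P)).card ≤
        (2 * (2 ^ d * (d + 1) * H / μ) + 1) ^ (d + 1 - e) := by
    intro P _
    rcases ((S ×ˢ U).filter (fun p => p.1 + tr n t d j p.2 = P)).eq_empty_or_nonempty with h | h
    · rw [h, Finset.card_empty]
      exact Nat.zero_le _
    · obtain ⟨p₀, hp₀⟩ := h
      rw [Finset.mem_filter, Finset.mem_product] at hp₀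
      have hinj : Set.InjOn (fun p : MvPolynomial (Fin (n + 1)) ℤ × (Fin (d + 1) → ℤ) => p.2 - p₀.2)
          (((S ×ˢ U).filter (fun p => p.1 + tr n t d j p.2 = P) : Finset _) : Set _) := by
        intro p hp q hq hpq
        rw [Finset.mem_coe, Finset.mem_filter] at hp hq
        have h1 : p.2 = q.2 := by
          have := congrArg (fun w => w + p₀.2) hpq
          simpa using this
        have h2 : p.1 = q.1 := by
          have h3 := hp.2.trans hq.2.symm
          rw [h1] at h3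
          exact add_right_cancel h3
        exact Prod.ext h2 h1
      rw [← Finset.card_image_of_injOn hinj]
      refine mult_le d e f μ hf hμ hi H _ fun u hu => ?_
      rw [Finset.mem_image] at hu
      obtain ⟨p, hp, rfl⟩ := hu
      rw [Finset.mem_filter, Finset.mem_product] at hp
      refine ⟨fun k => ?_, hdvd _ ?_⟩
      · have h1 := hmemU p.2 hp.1.2 k
        have h2 := hmemU p₀.2 hp₀.1.2 k
        rw [Pi.sub_apply, abs_le]
        constructor <;> linarith [h1.1, h1.2, h2.1, h2.2]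
      · rw [← aeval_tr t d j _ x hx, tr_sub, map_sub]
        have h1 : aeval x p.1 = 0 := (Finset.mem_filter.1 hp.1.1).2
        have h2 : aeval x p₀.1 = 0 := (Finset.mem_filter.1 hp₀.1.1).2
        have h3 := congrArg (aeval x) hp.2
        have h4 := congrArg (aeval x) hp₀.2
        rw [map_add, h1, zero_add] at h3
        rw [map_add, h2, zero_add] at h4
        rw [h3, h4, sub_self]
  have h1 := Finset.card_le_mul_card_image_of_maps_to hmaps _ hfib
  rw [Finset.card_product, hUcard] at h1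
  refine h1.trans (Nat.mul_le_mul_left _ ?_)
  exact card_FF_mul n d H _ (by omega)

theorem ratio_aux (a φ c A w h X : ℝ) (q e d1 : ℕ) (hd : q + e = d1) (ha0 : 0 ≤ a) (hφ : 0 < φ)
    (hc : 0 ≤ c) (hA : 0 ≤ A) (hw : 0 < w) (hh : 0 < h) (hX0 : 0 ≤ X)
    (hX : X ≤ 2 * A * (h * w)) (key : a * (h + 1) ^ d1 ≤ X ^ q * (c * φ)) :
    a / φ ≤ c * (2 * A) ^ q * (1 / h ^ e) * w ^ q := by
  subst hd
  have hP : 0 < h ^ q := pow_pos hh q
  have hQ : 0 < h ^ e := pow_pos hh e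
  have hcφ : 0 ≤ c * φ := mul_nonneg hc hφ.le
  have h2 : X ^ q ≤ (2 * A) ^ q * (h ^ q * w ^ q) := by
    rw [← mul_pow, ← mul_pow]
    exact pow_le_pow_left₀ hX0 hX _
  have h4 : h ^ q * h ^ e ≤ (h + 1) ^ (q + e) := by
    rw [← pow_add]
    exact pow_le_pow_left₀ hh.le (by linarith) _
  have h3 : a * (h ^ q * h ^ e) ≤ (2 * A) ^ q * (h ^ q * w ^ q) * (c * φ) :=
    calc a * (h ^ q * h ^ e) ≤ a * (h + 1) ^ (q + e) := mul_le_mul_of_nonneg_left h4 ha0
      _ ≤ _ := key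
      _ ≤ _ := mul_le_mul_of_nonneg_right h2 hcφ
  rw [div_le_iff₀ hφ]
  have h5 : a * h ^ e ≤ (2 * A) ^ q * w ^ q * (c * φ) := by
    refine le_of_mul_le_mul_left ?_ hP
    calc h ^ q * (a * h ^ e) = a * (h ^ q * h ^ e) := by ring
      _ ≤ _ := h3
      _ = _ := by ring
  calc a = a * h ^ e * (1 / h ^ e) := by field_simp
    _ ≤ ((2 * A) ^ q * w ^ q * (c * φ)) * (1 / h ^ e) :=
        mul_le_mul_of_nonneg_right h5 (by positivity)
    _ = _ := by ring

theorem X_aux (d H μ : ℕ) (hμ : 1 ≤ μ) (hH : 1 ≤ H) :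
    ((2 * (2 ^ d * (d + 1) * H / μ) + 1 : ℕ) : ℝ) ≤
      2 * (2 ^ d * ((d : ℝ) + 1)) * ((H : ℝ) * (1 / (μ : ℝ) + 1 / (H : ℝ))) := by
  have hH0 : (0 : ℝ) < H := by exact_mod_cast hH
  have hμ0 : (0 : ℝ) < μ := by exact_mod_cast hμ
  have hA1 : (1 : ℝ) ≤ 2 ^ d * ((d : ℝ) + 1) := by
    have h1 : (1 : ℝ) ≤ 2 ^ d := one_le_pow₀ (by norm_num)
    have h2 : (1 : ℝ) ≤ (d : ℝ) + 1 := by
      have : (0 : ℝ) ≤ d := Nat.cast_nonneg d
      linarith
    nlinarith
  have h2 : ((2 ^ d * (d + 1) * H / μ : ℕ) : ℝ) ≤ (2 ^ d * ((d : ℝ) + 1)) * (H / μ) := by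
    refine Nat.cast_div_le.trans (le_of_eq ?_)
    push_cast
    ring
  have h3 : (H : ℝ) * (1 / (μ : ℝ) + 1 / (H : ℝ)) = H / μ + 1 := by
    field_simp
  have h4 : (0 : ℝ) ≤ (H : ℝ) / μ := by positivity
  rw [h3, Nat.cast_add, Nat.cast_mul, Nat.cast_one]
  generalize ((2 ^ d * (d + 1) * H / μ : ℕ) : ℝ) = z at *
  generalize (2 : ℝ) ^ d * ((d : ℝ) + 1) = A at *
  push_cast
  nlinarith

open Classical in
/-- **the proportion of the forms vanishing at an algebraic point** -/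
theorem prop_zero (n d e M : ℕ) (hde : e ≤ d + 1) : ∃ K : ℝ, 0 < K ∧ ∀ (j : Fin (n + 1)) (t : ℕ)
    (x : Fin (n + 1) → Qbar) (f : Polynomial ℤ) (μ : ℕ), t ≤ M → x j = 1 → f.natDegree = e →
    1 ≤ μ → (∃ i, (f.coeff i).natAbs = μ) →
    (∀ u : Polynomial ℤ, Polynomial.aeval (lt t x) u = 0 → f ∣ u) → ∀ H : ℕ, 1 ≤ H →
    (((FF n d H).filter (fun F => aeval x F = 0)).card : ℝ) / ((FF n d H).card : ℝ) ≤
      K * (1 / (H : ℝ) ^ e) * (1 / (μ : ℝ) + 1 / (H : ℝ)) ^ (d + 1 - e) := by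
  obtain ⟨c, hc, h⟩ := count_trans n d e M
  have hc0 : (0 : ℝ) < c := by exact_mod_cast hc
  have hA0 : (0 : ℝ) < 2 ^ d * ((d : ℝ) + 1) := by positivity
  refine ⟨(c : ℝ) ^ (Mo n d).card * (2 * (2 ^ d * ((d : ℝ) + 1))) ^ (d + 1 - e),
    mul_pos (pow_pos hc0 _) (pow_pos (by linarith) _),
    fun j t x f μ ht hx hf hμ hi hdvd H hH => ?_⟩
  have key := h j t x f μ ht hx hf hμ hi hdvd H
  have hH0 : (0 : ℝ) < H := by exact_mod_cast hH
  have hμ0 : (0 : ℝ) < μ := by exact_mod_cast hμ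
  have hFpos : (0 : ℝ) < ((FF n d H).card : ℝ) := by
    rw [card_FF]
    exact_mod_cast Nat.pow_pos (by omega)
  have hX := X_aux d H μ hμ hH
  generalize ((FF n d H).filter (fun F => aeval x F = 0)).card = a at *
  generalize (FF n d H).card = φ at *
  generalize (Mo n d).card = N at *
  generalize 2 * (2 ^ d * (d + 1) * H / μ) + 1 = X at *
  refine ratio_aux (a : ℝ) φ ((c : ℝ) ^ N) (2 ^ d * ((d : ℝ) + 1)) (1 / (μ : ℝ) + 1 / (H : ℝ)) H X
    (d + 1 - e) e (d + 1) (by omega) (Nat.cast_nonneg _) hFpos (pow_pos hc0 _).le hA0.le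
    (by positivity) hH0 (Nat.cast_nonneg _) hX ?_
  have h3 : ((a * (H + 1) ^ (d + 1) : ℕ) : ℝ) ≤ ((X ^ (d + 1 - e) * (c ^ N * φ) : ℕ) : ℝ) :=
    Nat.cast_le.2 key
  rw [Nat.cast_mul, Nat.cast_mul, Nat.cast_mul, Nat.cast_pow, Nat.cast_pow, Nat.cast_pow,
    Nat.cast_add, Nat.cast_one] at h3
  exact h3

end Pool.Agent.Helper17.AP
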